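import Pool.Agent.Work.MP_4eca41_an.T.T1
import Pool.Agent.Work.MP_4eca41_an.T.T3

/-!
# Block R2: local convexity implies convexity (plane); second differences of a smooth maximum

STATEMENTS FIXED (helper49).

PROOF.  (`loc_convex`) `convexOn_iff...`: for `x, y` the function `φ t = g (x + t • (y - x))` is continuous and `d2 φ h t = D2 g (h • (y - x)) (x + t • (y - x)) ≥ 0` for small `h > 0` (depending on `t`): by `t1_convex` `φ` is convex on the line; the convexity
inequality for `φ` between `0` and `1` is the one of `g` between `x` and `y`.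
(`smax_D2`) `smax δ` is jointly convex (`smax_convexOn` on `E = ℝ × ℝ` with `u = Prod.fst`, `v = Prod.snd`) and monotone in both arguments (`smax_mono`):
`smax (a (z+v)) (b (z+v)) + smax (a (z-v)) (b (z-v)) ≥ 2 smax ((a (z+v) + a (z-v))/2) ((b (z+v) + b (z-v))/2) ≥ 2 smax (a z) (b z)`.
-/

set_option autoImplicit false

open Set

namespace Pool.Agent.MP_4eca41.R2

theorem loc_convex (g : ℝ × ℝ → ℝ) (hg : Continuous g)
    (h : ∀ z : ℝ × ℝ, ∃ ρ : ℝ, 0 < ρ ∧ ∀ v : ℝ × ℝ, sq v ≤ ρ ^ 2 → 0 ≤ D2 g v z) :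
    ConvexOn ℝ univ g := by
  refine ⟨convex_univ, fun x _ y _ a b ha hb hab => ?_⟩
  set w : ℝ × ℝ := y - x with hw
  set φ : ℝ → ℝ := fun t => g (x + t • w) with hφ
  have hφc : Continuous φ := hg.comp (continuous_const.add (continuous_id.smul continuous_const))
  have hs : 0 ≤ sq w := by
    unfold sq
    positivity
  have hconv : ConvexOn ℝ univ φ := by
    refine t1_convex φ hφc fun t κ hκ => ?_
    obtain ⟨ρ, hρ, hρ'⟩ := h (x + t • w)
    refine ⟨ρ / (sq w + 1), by positivity, fun r hr hr' => ?_⟩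
    have h1 : sq (r • w) ≤ ρ ^ 2 := by
      have h2 : r * (sq w + 1) ≤ ρ := by
        rw [lt_div_iff₀ (by positivity)] at hr'
        exact hr'.le
      have h3 : (r * (sq w + 1)) ^ 2 ≤ ρ ^ 2 := pow_le_pow_left₀ (by positivity) h2 2
      have h4 : sq (r • w) = r ^ 2 * sq w := by
        unfold sq
        simp only [Prod.smul_fst, Prod.smul_snd, smul_eq_mul]
        ring
      have h5 : r ^ 2 * sq w ≤ (r * (sq w + 1)) ^ 2 := by
        rw [mul_pow]
        refine mul_le_mul_of_nonneg_left ?_ (by positivity)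
        nlinarith
      rw [h4]
      exact h5.trans h3
    have h6 := hρ' (r • w) h1
    have h7 : d2 φ r t = D2 g (r • w) (x + t • w) := by
      unfold d2 D2
      simp only [hφ]
      rw [add_smul, sub_smul, add_assoc, ← add_sub_assoc]
    rw [h7]
    have h8 : 0 ≤ κ * r ^ 2 := by positivity
    linarith
  have h1 := hconv.2 (mem_univ (0 : ℝ)) (mem_univ (1 : ℝ)) ha hb hab
  have e1 : φ (a • (0 : ℝ) + b • (1 : ℝ)) = g (a • x + b • y) := by
    simp only [hφ, smul_eq_mul, mul_zero, mul_one, zero_add]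
    congr 1
    rw [hw, smul_sub, ← add_sub_assoc, add_sub_right_comm]
    congr 1
    have : a = 1 - b := by linarith
    rw [this, sub_smul, one_smul]
  have e2 : φ 0 = g x := by simp only [hφ, zero_smul, add_zero]
  have e3 : φ 1 = g y := by
    simp only [hφ, one_smul, hw]
    congr 1
    abel
  rw [e1, e2, e3] at h1
  exact h1

theorem smax_D2 (δ : ℝ) (hδ : 0 < δ) (a b : ℝ × ℝ → ℝ) (v z : ℝ × ℝ) (ha : 0 ≤ D2 a v z)
    (hb : 0 ≤ D2 b v z) : 0 ≤ D2 (fun z' => smax δ (a z') (b z')) v z := by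
  unfold D2 at ha hb ⊢
  have hfst : ConvexOn ℝ univ (Prod.fst : ℝ × ℝ → ℝ) :=
    ⟨convex_univ, fun x _ y _ α β _ _ _ => le_of_eq (by simp)⟩
  have hsnd : ConvexOn ℝ univ (Prod.snd : ℝ × ℝ → ℝ) :=
    ⟨convex_univ, fun x _ y _ α β _ _ _ => le_of_eq (by simp)⟩
  have hc := smax_convexOn δ hδ univ Prod.fst Prod.snd hfst hsnd
  have h1 := hc.2 (mem_univ (a (z + v), b (z + v))) (mem_univ (a (z - v), b (z - v)))
    (show (0 : ℝ) ≤ 1 / 2 by norm_num) (show (0 : ℝ) ≤ 1 / 2 by norm_num) (by norm_num)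
  simp only [Prod.fst_add, Prod.snd_add, Prod.smul_fst, Prod.smul_snd, smul_eq_mul] at h1
  have h2 := smax_mono δ hδ (a := a z) (a' := 1 / 2 * a (z + v) + 1 / 2 * a (z - v))
    (b := b z) (b' := 1 / 2 * b (z + v) + 1 / 2 * b (z - v)) (by linarith) (by linarith)
  linarith

end Pool.Agent.MP_4eca41.R2
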