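import Pool.Agent.Work.MP_4eca41_an.T.MolC

/-!
# Block R2: mollification of a convex function with constant radius

STATEMENT FIXED (helper49).

PROOF.  `f` is continuous (convex on a finite dimensional space: `ConvexOn.continuousOn` / `ConvexOn.locallyLipschitz`).  `l = T.mol2 f (fun _ => ρ)` with `ρ > 0` small.  `C^2`: `T.mol2_contDiffOn` with `U = univ`.
Convex: `l z = ∫ f (z + ρ • s) * phi2 s`, for fixed `s` convex in `z`, `phi2 ≥ 0`; integrate the inequality (`integral_mono`, integrability by `phi2_int`).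
`f ≤ l`: substitution `s ↦ -s` (`phi2` even): `l z = ∫ (f (z + ρ s) + f (z - ρ s)) / 2 * phi2 s ≥ ∫ f z * phi2 s = f z`.
`l ≤ f + η` on `B`: `f` is uniformly continuous on the compact set `cthickening 1 B` (or `B + closedBall 0 1`): for `ρ ≤ 1` small, `|f (z + ρ s) - f z| ≤ η` for `z ∈ B`, `‖s‖ ≤ 1`; `phi2 s = 0` for `‖s‖ ≥ 1/2`.
-/

set_option autoImplicit false

open Set Metric MeasureTheory

namespace Pool.Agent.MP_4eca41.R2

private theorem mll_unif (f : ℝ × ℝ → ℝ) (hc : Continuous f) (B : Set (ℝ × ℝ)) (hB : IsCompact B)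
    (η : ℝ) (hη : 0 < η) :
    ∃ ρ : ℝ, 0 < ρ ∧ ∀ z ∈ B, ∀ s : ℝ × ℝ, ‖s‖ ≤ 1 → f (z + ρ • s) ≤ f z + η := by
  have hK : IsCompact (cthickening 1 B) := hB.cthickening
  have hu : UniformContinuousOn f (cthickening 1 B) :=
    hK.uniformContinuousOn_of_continuous hc.continuousOn
  rw [Metric.uniformContinuousOn_iff] at hu
  obtain ⟨δ, hδ, hd⟩ := hu η hη
  refine ⟨min 1 (δ / 2), by positivity, fun z hz s hs => ?_⟩
  set ρ := min 1 (δ / 2) with hρ
  have hρ0 : 0 < ρ := by positivity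
  have hn : ‖ρ • s‖ ≤ ρ := by
    rw [norm_smul, Real.norm_of_nonneg hρ0.le]
    nlinarith [norm_nonneg s]
  have h1 : z ∈ cthickening 1 B := self_subset_cthickening B hz
  have h2 : z + ρ • s ∈ cthickening 1 B := by
    apply mem_cthickening_of_dist_le (z + ρ • s) z 1 B hz
    rw [dist_eq_norm]
    have : z + ρ • s - z = ρ • s := by abel
    rw [this]
    exact hn.trans (min_le_left _ _)
  have h3 : dist (z + ρ • s) z < δ := by
    rw [dist_eq_norm]
    have : z + ρ • s - z = ρ • s := by abel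
    rw [this]
    have := min_le_right 1 (δ / 2)
    linarith
  have h4 := hd _ h2 _ h1 h3
  rw [Real.dist_eq] at h4
  have := (abs_lt.mp h4).2
  linarith

theorem moll_const (f : ℝ × ℝ → ℝ) (hf : ConvexOn ℝ univ f) (B : Set (ℝ × ℝ)) (hB : IsCompact B)
    (η : ℝ) (hη : 0 < η) :
    ∃ l : ℝ × ℝ → ℝ, ContDiff ℝ 2 l ∧ ConvexOn ℝ univ l ∧ (∀ z, f z ≤ l z) ∧
      ∀ z ∈ B, l z ≤ f z + η := by
  have hc : Continuous f := by
    have := hf.continuousOn isOpen_univ
    exact continuousOn_univ.mp this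
  obtain ⟨ρ, hρ, hu⟩ := mll_unif f hc B hB η hη
  have hint : ∀ z : ℝ × ℝ, Integrable fun s : ℝ × ℝ => f (z + ρ • s) * T.phi2 s := fun z =>
    T.phi2_int f hc z ρ
  have hval : ∀ z : ℝ × ℝ, T.mol2 f (fun _ => ρ) z = ∫ s : ℝ × ℝ, f (z + ρ • s) * T.phi2 s :=
    fun z => rfl
  refine ⟨T.mol2 f (fun _ => ρ), ?_, ⟨convex_univ, ?_⟩, ?_, ?_⟩
  · exact contDiffOn_univ.mp (T.mol2_contDiffOn f (fun _ => ρ) hc univ isOpen_univ
      contDiffOn_const (fun _ _ => hρ))
  · intro x _ y _ a b ha hb hab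
    simp only [hval, smul_eq_mul]
    have h1 : a * (∫ s : ℝ × ℝ, f (x + ρ • s) * T.phi2 s) + b * (∫ s : ℝ × ℝ, f (y + ρ • s) * T.phi2 s)
        = ∫ s : ℝ × ℝ, (a * (f (x + ρ • s) * T.phi2 s) + b * (f (y + ρ • s) * T.phi2 s)) := by
      rw [integral_add ((hint x).const_mul a) ((hint y).const_mul b), integral_const_mul,
        integral_const_mul]
    rw [h1]
    apply integral_mono (hint _) (((hint x).const_mul a).add ((hint y).const_mul b))
    intro s
    have h2 := hf.2 (mem_univ (x + ρ • s)) (mem_univ (y + ρ • s)) ha hb hab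
    have h3 : a • (x + ρ • s) + b • (y + ρ • s) = a • x + b • y + ρ • s := by
      have : a • (x + ρ • s) + b • (y + ρ • s) = a • x + b • y + (a + b) • (ρ • s) := by
        rw [smul_add, smul_add, add_smul]; abel
      rw [this, hab, one_smul]
    rw [h3] at h2
    simp only [smul_eq_mul] at h2
    have h4 := T.phi2_nonneg s
    simp only [Pi.add_apply]
    nlinarith
  · intro z
    rw [hval]
    have h1 : ∫ s : ℝ × ℝ, f (z + ρ • s) * T.phi2 s = ∫ s : ℝ × ℝ, f (z + ρ • (-s)) * T.phi2 (-s) :=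
      (integral_neg_eq_self (fun s : ℝ × ℝ => f (z + ρ • s) * T.phi2 s) volume).symm
    have hint' : Integrable fun s : ℝ × ℝ => f (z + ρ • (-s)) * T.phi2 (-s) :=
      (hint z).comp_neg
    have h2 : (2 : ℝ) * f z = ∫ s : ℝ × ℝ, 2 * f z * T.phi2 s := by
      rw [integral_const_mul, T.phi2_integral, mul_one]
    have h3 : ∫ s : ℝ × ℝ, 2 * f z * T.phi2 s
        ≤ ∫ s : ℝ × ℝ, (f (z + ρ • s) * T.phi2 s + f (z + ρ • (-s)) * T.phi2 (-s)) := by
      apply integral_mono (T.phi2_integrable.const_mul _) ((hint z).add hint')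
      intro s
      have h5 := hf.2 (mem_univ (z + ρ • s)) (mem_univ (z + ρ • (-s)))
        (show (0 : ℝ) ≤ 1 / 2 by norm_num) (show (0 : ℝ) ≤ 1 / 2 by norm_num) (by norm_num)
      have h6 : (1 / 2 : ℝ) • (z + ρ • s) + (1 / 2 : ℝ) • (z + ρ • (-s)) = z := by
        ext <;> simp <;> ring
      rw [h6] at h5
      simp only [smul_eq_mul] at h5
      have h4 := T.phi2_nonneg s
      simp only [Pi.add_apply, T.phi2_neg]
      nlinarith
    rw [integral_add (hint z) hint', ← h1] at h3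
    linarith
  · intro z hz
    rw [hval]
    have h2 : f z + η = ∫ s : ℝ × ℝ, (f z + η) * T.phi2 s := by
      rw [integral_const_mul, T.phi2_integral, mul_one]
    rw [h2]
    apply integral_mono (hint z) (T.phi2_integrable.const_mul _)
    intro s
    have h4 := T.phi2_nonneg s
    simp only
    by_cases hs : ‖s‖ ≤ 1
    · exact mul_le_mul_of_nonneg_right (hu z hz s hs) h4
    · have h5 : T.phi2 s = 0 := by
        apply T.phi2_zero
        rw [not_le, Prod.norm_def, lt_sup_iff, Real.norm_eq_abs, Real.norm_eq_abs] at hs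
        rcases hs with h | h
        · left; linarith
        · right; linarith
      rw [h5]; simp

end Pool.Agent.MP_4eca41.R2
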