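import Pool.Agent.Work.MP_4eca41_an.T.Tay

/-!
# Block R2: local convexity near a compact set of points with positive definite Hessian

STATEMENT FIXED (helper49).

PROOF.  Let `H z v = iteratedFDeriv ℝ 2 A z ![v, v]`.  For `y ∈ K`: from `hE.ex` (at `v = t • w` and `-v`) `|D2 A (t • w) y - t^2 (J.a y w1^2 + 2 J.b y w1 w2 + J.c y w2^2)| ≤ 2 ε t^2 sq w` for small `t`; `T.tay3` and `ε → 0`:
`H y w = J.a y w1^2 + 2 J.b y w1 w2 + J.c y w2^2`, positive for `w ≠ 0` (`a > 0`, `b^2 < a c`: `a * form = (a w1 + b w2)^2 + (a c - b^2) w2^2`).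
The function `(z, w) ↦ H z w` is continuous (`ContDiff.continuous_iteratedFDeriv`), positive on the compact set `K × {w | ‖w‖ = 1}`: there is `c > 0` with `H ≥ 2 c` on it, and `r1 > 0` with `H z w ≥ c` for `infDist z K < r1`, `‖w‖ = 1`
(uniform continuity on a compact neighbourhood: `cthickening 1 K` is compact; or argue by contradiction with sequences).  By homogeneity `H z v ≥ c ‖v‖^2`.  `T.tay2` with `η = c`: `D2 A v z ≥ H z v - c ‖v‖^2 ≥ 0` for small `v`.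
If `K` is empty then `infDist z K = 0` for all `z` by convention: the hypothesis `hne` excludes this.
-/

set_option autoImplicit false

open Set Metric

namespace Pool.Agent.MP_4eca41.R2

private theorem hess_eq (A : ℝ × ℝ → ℝ) (hA : ContDiff ℝ 2 A) (K : Set (ℝ × ℝ)) (J : Jets)
    (hE : Exp2 A K J) (z : ℝ × ℝ) (hz : z ∈ K) (v : ℝ × ℝ) :
    iteratedFDeriv ℝ 2 A z ![v, v] =
      J.a z * v.1 ^ 2 + 2 * J.b z * v.1 * v.2 + J.c z * v.2 ^ 2 := by
  have hsq : 0 ≤ sq v := by unfold sq; positivity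
  have key : ∀ κ : ℝ, 0 < κ → |iteratedFDeriv ℝ 2 A z ![v, v] -
      (J.a z * v.1 ^ 2 + 2 * J.b z * v.1 * v.2 + J.c z * v.2 ^ 2)| ≤ κ := by
    intro κ hκ
    refine T.tay3 A z v hA.contDiffAt _ κ ?_
    obtain ⟨δ, hδ, hex⟩ := hE.ex (κ / (2 * (sq v + 1))) (by positivity)
    refine ⟨δ / (sq v + 1), by positivity, fun t ht htl => ?_⟩
    have h1 : sq (t • v) = t ^ 2 * sq v := by
      simp only [sq, Prod.smul_fst, Prod.smul_snd, smul_eq_mul]
      ring
    have h1' : sq (-(t • v)) = t ^ 2 * sq v := by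
      simp only [sq, Prod.smul_fst, Prod.smul_snd, smul_eq_mul, Prod.fst_neg, Prod.snd_neg]
      ring
    have h2 : t ^ 2 * sq v ≤ δ ^ 2 := by
      have h3 : t * (sq v + 1) ≤ δ := by
        rwa [le_div_iff₀ (by positivity)] at htl
      have h4 : (t * (sq v + 1)) ^ 2 ≤ δ ^ 2 := by
        apply pow_le_pow_left₀ (by positivity) h3
      have h5 : t ^ 2 * sq v ≤ (t * (sq v + 1)) ^ 2 := by
        rw [mul_pow]
        apply mul_le_mul_of_nonneg_left _ (by positivity)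
        nlinarith
      linarith
    have e1 := hex z hz (t • v) (by rw [h1]; exact h2)
    have e2 := hex z hz (-(t • v)) (by rw [h1']; exact h2)
    rw [h1] at e1
    rw [h1'] at e2
    have hq : J.q z (t • v) + J.q z (-(t • v)) =
        (J.a z * v.1 ^ 2 + 2 * J.b z * v.1 * v.2 + J.c z * v.2 ^ 2) * t ^ 2 := by
      simp only [Jets.q, Prod.smul_fst, Prod.smul_snd, smul_eq_mul, Prod.fst_neg, Prod.snd_neg]
      ring
    have hD : D2 A (t • v) z -
        (J.a z * v.1 ^ 2 + 2 * J.b z * v.1 * v.2 + J.c z * v.2 ^ 2) * t ^ 2 =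
        (A (z + t • v) - A z - J.q z (t • v)) + (A (z + -(t • v)) - A z - J.q z (-(t • v))) := by
      rw [← hq]
      simp only [D2, ← sub_eq_add_neg]
      ring
    rw [hD]
    refine (abs_add_le _ _).trans ((add_le_add e1 e2).trans ?_)
    have h6 : κ / (2 * (sq v + 1)) * (t ^ 2 * sq v) + κ / (2 * (sq v + 1)) * (t ^ 2 * sq v) =
        κ * t ^ 2 * (sq v / (sq v + 1)) := by
      field_simp
      ring
    rw [h6]
    have h7 : sq v / (sq v + 1) ≤ 1 := by
      rw [div_le_one (by positivity)]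
      linarith
    have h8 : 0 ≤ κ * t ^ 2 := by positivity
    nlinarith
  have h9 : |iteratedFDeriv ℝ 2 A z ![v, v] -
      (J.a z * v.1 ^ 2 + 2 * J.b z * v.1 * v.2 + J.c z * v.2 ^ 2)| ≤ 0 :=
    le_of_forall_pos_le_add fun κ hκ => by
      rw [zero_add]
      exact key κ hκ
  have h10 := abs_eq_zero.1 (le_antisymm h9 (abs_nonneg _))
  linarith

theorem pos_near (A : ℝ × ℝ → ℝ) (hA : ContDiff ℝ 2 A) (K : Set (ℝ × ℝ)) (hK : IsCompact K)
    (hne : K.Nonempty) (J : Jets) (hE : Exp2 A K J)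
    (h0 : ∀ z ∈ K, 0 < J.a z ∧ J.b z ^ 2 < J.a z * J.c z) :
    ∃ r1 : ℝ, 0 < r1 ∧ ∀ z : ℝ × ℝ, infDist z K < r1 → ∃ ρ : ℝ, 0 < ρ ∧
      ∀ v : ℝ × ℝ, sq v ≤ ρ ^ 2 → 0 ≤ D2 A v z := by
  set H : (ℝ × ℝ) × (ℝ × ℝ) → ℝ := fun q => fderiv ℝ (fderiv ℝ A) q.1 q.2 q.2 with hH
  have hHe : ∀ z v, iteratedFDeriv ℝ 2 A z ![v, v] = H (z, v) := by
    intro z v
    rw [iteratedFDeriv_two_apply]
    rfl
  have hc1 : ContDiff ℝ 1 (fderiv ℝ A) := hA.fderiv_right (by norm_num)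
  have hc2 : Continuous (fderiv ℝ (fderiv ℝ A)) := hc1.continuous_fderiv (by norm_num)
  have hHc : Continuous H :=
    ((hc2.comp continuous_fst).clm_apply continuous_snd).clm_apply continuous_snd
  have hpos : ∀ z ∈ K, ∀ w : ℝ × ℝ, ‖w‖ = 1 → 0 < H (z, w) := by
    intro z hz w hw
    rw [← hHe, hess_eq A hA K J hE z hz w]
    obtain ⟨ha, hb⟩ := h0 z hz
    have hw0 : w.1 ≠ 0 ∨ w.2 ≠ 0 := by
      by_contra hcon
      push Not at hcon
      have : w = 0 := Prod.ext hcon.1 hcon.2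
      rw [this, norm_zero] at hw
      exact zero_ne_one hw
    have h1 : J.a z * (J.a z * w.1 ^ 2 + 2 * J.b z * w.1 * w.2 + J.c z * w.2 ^ 2) =
        (J.a z * w.1 + J.b z * w.2) ^ 2 + (J.a z * J.c z - J.b z ^ 2) * w.2 ^ 2 := by ring
    have h2 : 0 < (J.a z * w.1 + J.b z * w.2) ^ 2 + (J.a z * J.c z - J.b z ^ 2) * w.2 ^ 2 := by
      by_cases h3 : w.2 = 0
      · have h4 : w.1 ≠ 0 := hw0.resolve_right (not_not.2 h3)
        rw [h3]
        have : 0 < (J.a z * w.1) ^ 2 := by positivity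
        nlinarith
      · have h5 : 0 < w.2 ^ 2 := by positivity
        have h6 : 0 < (J.a z * J.c z - J.b z ^ 2) * w.2 ^ 2 := mul_pos (by linarith) h5
        have h7 := sq_nonneg (J.a z * w.1 + J.b z * w.2)
        linarith
    rw [← h1] at h2
    exact (mul_pos_iff_of_pos_left ha).1 h2
  have hsph : IsCompact (sphere (0 : ℝ × ℝ) 1) := isCompact_sphere _ _
  have hcomp : IsCompact (K ×ˢ sphere (0 : ℝ × ℝ) 1) := hK.prod hsph
  have hnes : (K ×ˢ sphere (0 : ℝ × ℝ) 1).Nonempty := by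
    obtain ⟨z, hz⟩ := hne
    refine ⟨(z, (1, 0)), hz, ?_⟩
    rw [mem_sphere_zero_iff_norm]
    simp [Prod.norm_def]
  obtain ⟨⟨z0, w0⟩, hq0, hmin⟩ := hcomp.exists_isMinOn hnes hHc.continuousOn
  have hc0 : 0 < H (z0, w0) := hpos z0 hq0.1 w0 (mem_sphere_zero_iff_norm.1 hq0.2)
  set c := H (z0, w0) / 2 with hcdef
  have hc : 0 < c := by positivity
  obtain ⟨u, u', hu, hu', hKu, hsu, huu⟩ := generalized_tube_lemma hK hsph
    (isOpen_lt continuous_const hHc : IsOpen {q | c < H q}) (by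
      intro q hq
      have h1 : H (z0, w0) ≤ H q := hmin hq
      show c < H q
      linarith)
  obtain ⟨r1, hr1, hthick⟩ := hK.exists_thickening_subset_open hu hKu
  refine ⟨r1, hr1, fun z hz => ?_⟩
  have hzu : z ∈ u := hthick ((mem_thickening_iff_infDist_lt hne).2 hz)
  obtain ⟨ρ, hρ, hD⟩ := T.tay2 A z hA.contDiffAt c hc
  refine ⟨ρ, hρ, fun v hv => ?_⟩
  have h1 := hD v hv
  rw [hHe] at h1
  have h2 : c * ‖v‖ ^ 2 ≤ H (z, v) := by
    by_cases hv0 : v = 0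
    · rw [hv0]
      simp [hH]
    · have hn : ‖v‖ ≠ 0 := norm_ne_zero_iff.2 hv0
      have h3 : ‖(‖v‖⁻¹ • v)‖ = 1 := by
        rw [norm_smul, norm_inv, norm_norm, inv_mul_cancel₀ hn]
      have h4 : c < H (z, ‖v‖⁻¹ • v) :=
        huu (⟨hzu, hsu (mem_sphere_zero_iff_norm.2 h3)⟩ : (z, ‖v‖⁻¹ • v) ∈ u ×ˢ u')
      have h5 : H (z, v) = ‖v‖ ^ 2 * H (z, ‖v‖⁻¹ • v) := by
        simp only [hH, map_smul, ContinuousLinearMap.smul_apply, smul_eq_mul]
        field_simp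
      rw [h5]
      have h6 : 0 < ‖v‖ ^ 2 := by positivity
      nlinarith
  have h3 := (abs_le.1 h1).1
  linarith

end Pool.Agent.MP_4eca41.R2
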