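import Pool.Agent.Work.MP_4eca41_an.R2.Quad
import Pool.Agent.Work.MP_4eca41_an.T.Rad
import Pool.Agent.Work.MP_4eca41_an.T.Seq
import Pool.Agent.Work.MP_4eca41_an.T.Glue

/-!
# Block R2: the function psi

STATEMENT FIXED (helper49).

PROOF.  `C₁` from `T.radius (ℝ × ℝ)`.  `M k ε :⇔ ∀ z, (1/2)^(k+1) ≤ infDist z K → infDist z K ≤ (1/2)^k → |h z| ≤ ε * infDist z K ^ 2`, true for large `k` by `hh ε`.  `T.slow_seq` with `ψ t = t^2 / 8`, `c = 1`: `e`, `k0`.  `r` from `T.radius` for `Z = K`.  `ψ = r^2`.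
`ψ = 0` on `K`, `> 0` off `K`.  For `z ∉ K`, `(1/2)^(k+1) ≤ d ≤ (1/2)^k` (`d = infDist z K`): `ψ z ≤ 16 (e k)^2 d^2` (third claim, `e k → 0`), and for `k ≥ k0`: `2 |h z| ≤ 2 (e (k+1))^2 / 8 d^2 ≤ (r z)^2 = ψ z` (fourth claim; for `z ∈ K`: `|h z| ≤ 0` by `hh`).
`C^2`: `T.glue` with the zero jets (`J = ⟨0, 0, 0, 0, 0⟩` as functions): expansions on `K` by the third claim (`|ψ (z+v) - 0 - 0| ≤ κ (infDist (z+v) K)^2 ≤ κ sq v`); `C^2` on `Kᶜ`; limit: `sq_r` gives for small `v`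
`|D2 ψ v z| ≤ (2 r z ‖iteratedFDeriv ℝ 2 r z‖ + 2 ‖fderiv ℝ r z‖^2 + η) sq v ≤ (8 C₁ (e k)^2 + 2 C₁^2 (e k)^2 + η) sq v` (`r z * 2^k ≤ 4 e k`), and `k → ∞` as `z → y ∈ K`.
-/

set_option autoImplicit false

open Set Metric Filter

namespace Pool.Agent.MP_4eca41.R2

/-- the scale of a point near `K` -/
private theorem ps_scale {K : Set (ℝ × ℝ)} (hK : IsCompact K) (hne : K.Nonempty) (k1 : ℕ)
    {z : ℝ × ℝ} (hz : z ∉ K) (hd : infDist z K ≤ (1 / 2 : ℝ) ^ k1) :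
    ∃ k, k1 ≤ k ∧ (1 / 2 : ℝ) ^ (k + 1) ≤ infDist z K ∧ infDist z K ≤ (1 / 2 : ℝ) ^ k := by
  have h0 : 0 < infDist z K := (hK.isClosed.notMem_iff_infDist_pos hne).mp hz
  have h1 : infDist z K ≤ 1 := hd.trans (pow_le_one₀ (by norm_num) (by norm_num))
  obtain ⟨k, hk1, hk2⟩ := exists_nat_pow_near_of_lt_one h0 h1 (y := (1 / 2 : ℝ)) (by norm_num)
    (by norm_num)
  refine ⟨k, ?_, hk1.le, hk2⟩
  have h2 : (1 / 2 : ℝ) ^ (k + 1) < (1 / 2 : ℝ) ^ k1 := hk1.trans_le hd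
  have h3 : k1 < k + 1 := (pow_lt_pow_iff_right_of_lt_one₀ (by norm_num) (by norm_num)).mp h2
  omega

/-- small values of an antitone null sequence -/
private theorem ps_small {e : ℕ → ℝ} (hl : Tendsto e atTop (nhds 0)) (B κ : ℝ) (hκ : 0 < κ) :
    ∃ k1, ∀ k, k1 ≤ k → B * e k ^ 2 ≤ κ := by
  have h1 : Tendsto (fun k => B * e k ^ 2) atTop (nhds 0) := by
    have := (hl.pow 2).const_mul B
    simpa using this
  obtain ⟨k1, hk1⟩ := (h1.eventually (gt_mem_nhds hκ)).exists_forall_of_atTop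
  exact ⟨k1, fun k hk => (hk1 k hk).le⟩

theorem psi_ex (K : Set (ℝ × ℝ)) (hK : IsCompact K) (hne : K.Nonempty) (h : ℝ × ℝ → ℝ)
    (hh : ∀ κ : ℝ, 0 < κ → ∃ δ : ℝ, 0 < δ ∧ ∀ z : ℝ × ℝ, infDist z K ≤ δ →
      |h z| ≤ κ * infDist z K ^ 2) :
    ∃ ψ : ℝ × ℝ → ℝ, ContDiff ℝ 2 ψ ∧ (∀ z ∈ K, ψ z = 0) ∧ (∀ z, z ∉ K → 0 < ψ z) ∧
      (∀ κ : ℝ, 0 < κ → ∃ δ : ℝ, 0 < δ ∧ ∀ z : ℝ × ℝ, infDist z K ≤ δ →
        ψ z ≤ κ * infDist z K ^ 2) ∧
      ∃ δ : ℝ, 0 < δ ∧ ∀ z : ℝ × ℝ, infDist z K ≤ δ → 2 * |h z| ≤ ψ z := by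
  obtain ⟨C, hC, hrad⟩ := T.radius (ℝ × ℝ)
  obtain ⟨e, he1, he2, he3, he4, k0, hk0⟩ := T.slow_seq
    (fun k ε => ∀ z : ℝ × ℝ, (1 / 2 : ℝ) ^ (k + 1) ≤ infDist z K → infDist z K ≤ (1 / 2 : ℝ) ^ k →
      |h z| ≤ ε * infDist z K ^ 2)
    (by
      intro ε hε
      obtain ⟨δ, hδ, hd⟩ := hh ε hε
      obtain ⟨N, hN⟩ := exists_pow_lt_of_lt_one hδ (by norm_num : (1 / 2 : ℝ) < 1)
      refine ⟨N, fun k hk z _ hz2 => hd z ?_⟩
      exact hz2.trans ((pow_le_pow_of_le_one (by norm_num) (by norm_num) hk).trans hN.le))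
    (fun t => t ^ 2 / 8) (fun t ht => by positivity) 1 one_pos
  obtain ⟨r, hr1, hr2, hr3, hr4, _, hr6, _⟩ := hrad K hK.isClosed hne e he1 he2 he3
  have hU : IsOpen Kᶜ := hK.isClosed.isOpen_compl
  have hr0 : ∀ z, 0 ≤ r z := by
    intro z
    by_cases hz : z ∈ K
    · exact (hr3 z hz).ge
    · exact (hr4 z hz).le
  have h3 : ∀ κ : ℝ, 0 < κ → ∃ δ : ℝ, 0 < δ ∧ ∀ z : ℝ × ℝ, infDist z K ≤ δ →
      r z ^ 2 ≤ κ * infDist z K ^ 2 := by
    intro κ hκ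
    obtain ⟨k1, hk1⟩ := ps_small he4 16 κ hκ
    refine ⟨(1 / 2) ^ k1, by positivity, fun z hz => ?_⟩
    by_cases hzK : z ∈ K
    · rw [hr3 z hzK]
      have : 0 ≤ κ * infDist z K ^ 2 := by positivity
      simpa using this
    · obtain ⟨k, hk, ha, hb⟩ := ps_scale hK hne k1 hzK hz
      have h1 := (hr6 k z ha hb).2.1
      have h2 := hk1 k hk
      have h3 : r z ^ 2 ≤ (4 * e k * infDist z K) ^ 2 :=
        pow_le_pow_left₀ (hr0 z) h1 2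
      have h4 : (4 * e k * infDist z K) ^ 2 = 16 * e k ^ 2 * infDist z K ^ 2 := by ring
      have h5 : 0 ≤ infDist z K ^ 2 := by positivity
      rw [h4] at h3
      exact h3.trans (mul_le_mul_of_nonneg_right h2 h5)
  have hsm : ContDiffOn ℝ 2 r Kᶜ := hr2.of_le (WithTop.coe_le_coe.mpr (le_top : (2 : ℕ∞) ≤ ⊤))
  have hexp : Exp2 (fun z => r z ^ 2) K ⟨0, 0, 0, 0, 0⟩ := by
    refine ⟨continuousOn_const, continuousOn_const, continuousOn_const, continuousOn_const,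
      continuousOn_const, fun ε hε => ?_⟩
    obtain ⟨δ, hδ, hd⟩ := h3 ε hε
    refine ⟨δ, hδ, fun z hz v hv => ?_⟩
    have hn := T.norm_le_sq v
    have hnv : ‖v‖ ≤ δ := by
      by_contra hc
      push Not at hc
      nlinarith [norm_nonneg v]
    have hi : infDist (z + v) K ≤ ‖v‖ := by
      have := infDist_le_dist_of_mem (x := z + v) hz
      rwa [dist_eq_norm, add_sub_cancel_left] at this
    have hi0 : 0 ≤ infDist (z + v) K := infDist_nonneg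
    have ha := hd (z + v) (hi.trans hnv)
    have hc : infDist (z + v) K ^ 2 ≤ sq v := by nlinarith
    have hq : Jets.q ⟨0, 0, 0, 0, 0⟩ z v = 0 := by simp [Jets.q]
    simp only [hr3 z hz, hq]
    have e1 : r (z + v) ^ 2 - 0 ^ 2 - 0 = r (z + v) ^ 2 := by ring
    rw [e1, abs_of_nonneg (by positivity)]
    exact ha.trans (mul_le_mul_of_nonneg_left hc hε.le)
  refine ⟨fun z => r z ^ 2, ?_, ?_, ?_, h3, ?_⟩
  · refine T.glue K hK _ ⟨0, 0, 0, 0, 0⟩ hexp (hsm.pow 2) ?_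
    intro y hy κ hκ
    obtain ⟨k1, hk1⟩ := ps_small he4 (8 * C + 2 * C ^ 2) (κ / 2) (by linarith)
    refine ⟨(1 / 2) ^ k1, by positivity, fun z hz hzK => ?_⟩
    have hpk : (0 : ℝ) < (1 / 2) ^ k1 := by positivity
    have hzz : sq (z - y) ≤ ((1 / 2 : ℝ) ^ k1) ^ 2 := hz
    have hn := T.norm_le_sq (z - y)
    have hnv : ‖z - y‖ ≤ (1 / 2) ^ k1 := by
      by_contra hc
      push Not at hc
      nlinarith [norm_nonneg (z - y)]
    have hi : infDist z K ≤ (1 / 2) ^ k1 := by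
      have := infDist_le_dist_of_mem (x := z) hy
      rw [dist_eq_norm] at this
      exact this.trans hnv
    obtain ⟨k, hk, ha, hb⟩ := ps_scale hK hne k1 hzK hi
    obtain ⟨_, h2, h3, h4⟩ := hr6 k z ha hb
    have h5 := hk1 k hk
    obtain ⟨ρ, hρ, hs⟩ := sq_r r z (hsm.contDiffAt (hU.mem_nhds hzK)) (hr0 z) (κ / 2) (by linarith)
    refine ⟨ρ, hρ, fun v hv => ?_⟩
    have h6 := hs v hv
    have hek := he2 k
    have h7 : r z ≤ 4 * e k * (1 / 2) ^ k := h2.trans (by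
      apply mul_le_mul_of_nonneg_left hb
      positivity)
    have h8 : r z * ‖iteratedFDeriv ℝ 2 r z‖ ≤ 4 * C * e k ^ 2 := by
      have h9 : r z * ‖iteratedFDeriv ℝ 2 r z‖ ≤ (4 * e k * (1 / 2) ^ k) * (C * e k * 2 ^ k) :=
        mul_le_mul h7 h4 (norm_nonneg _) (by positivity)
      have h10 : (1 / 2 : ℝ) ^ k * 2 ^ k = 1 := by
        rw [← mul_pow]
        norm_num
      calc r z * ‖iteratedFDeriv ℝ 2 r z‖ ≤ (4 * e k * (1 / 2) ^ k) * (C * e k * 2 ^ k) := h9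
        _ = 4 * C * e k ^ 2 * ((1 / 2 : ℝ) ^ k * 2 ^ k) := by ring
        _ = 4 * C * e k ^ 2 := by rw [h10, mul_one]
    have h11 : ‖fderiv ℝ r z‖ ^ 2 ≤ C ^ 2 * e k ^ 2 := by
      rw [← mul_pow]
      exact pow_le_pow_left₀ (norm_nonneg _) h3 2
    have hsq : 0 ≤ sq v := by
      unfold sq
      positivity
    have e0 : ((⟨0, 0, 0, 0, 0⟩ : Jets).a y * v.1 ^ 2 + 2 * (⟨0, 0, 0, 0, 0⟩ : Jets).b y * v.1 * v.2 +
        (⟨0, 0, 0, 0, 0⟩ : Jets).c y * v.2 ^ 2) = 0 := by simp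
    rw [e0, sub_zero]
    refine h6.trans (mul_le_mul_of_nonneg_right ?_ hsq)
    nlinarith
  · intro z hz
    simp only [hr3 z hz]
    norm_num
  · intro z hz
    have := hr4 z hz
    positivity
  · refine ⟨(1 / 2) ^ k0, by positivity, fun z hz => ?_⟩
    by_cases hzK : z ∈ K
    · obtain ⟨δ, hδ, hd⟩ := hh 1 one_pos
      have h0 : infDist z K = 0 := infDist_zero_of_mem hzK
      have h1 := hd z (by rw [h0]; exact hδ.le)
      rw [h0] at h1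
      have h2 : |h z| ≤ 0 := by simpa using h1
      have h4 : 0 ≤ r z ^ 2 := by positivity
      linarith
    · obtain ⟨k, hk, ha, hb⟩ := ps_scale hK hne k0 hzK hz
      have h1 := hk0 k hk z ha hb
      have h2 := (hr6 k z ha hb).1
      have h5 : (e (k + 1) / 2 * infDist z K) ^ 2 ≤ r z ^ 2 :=
        pow_le_pow_left₀ (by have := he2 (k + 1); have := @infDist_nonneg _ _ K z; positivity) h2 2
      have h6 : (e (k + 1) / 2 * infDist z K) ^ 2 =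
          2 * (e (k + 1) ^ 2 / 8 * infDist z K ^ 2) := by ring
      rw [h6] at h5
      linarith

end Pool.Agent.MP_4eca41.R2
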