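import Pool.Agent.Work.MP_4eca41_an.R2.Ext
import Pool.Agent.Work.MP_4eca41_an.R2.Psi
import Pool.Agent.Work.MP_4eca41_an.R2.Pos
import Pool.Agent.Work.MP_4eca41_an.R2.Mll
import Pool.Agent.Work.MP_4eca41_an.R2.Lin

/-!
# Block R2: the theorem

PROOF.  `f` is continuous.  `K` empty: let `c < f z` for all `z ∈ K'` (`f` is bounded below on the compact `K'`; if `K'` is empty any `c`), `u = c` constant.
`K` nonempty: `A` from `c2ext`, `ψ` from `psi_ex` with `h = A - f`, `δ1` from its last claim (`2 |A - f| ≤ ψ` for `infDist z K ≤ δ1`).  `A' = A - ψ`: `C^2`; `Exp2 A' K J` (from `Exp2 A K J`, `ψ = 0` on `K` and `0 ≤ ψ (z+v) ≤ κ (infDist (z+v) K)^2 ≤ κ sq v`);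
`A' = f` on `K`; `A' ≤ f + ψ/2 - ψ = f - ψ/2` for `infDist z K ≤ δ1`.  `r0` from `pos_near` for `A'`, `r1 = min r0 δ1 `.
Compact sets: `B1 = {z | r1/2 ≤ infDist z K ∧ infDist z K ≤ r1}` (closed and bounded, disjoint from `K`), `B2 = K' ∩ {z | infDist z K ≤ r1}`, `B = {z | infDist z K ≤ r1} ∪ K'`.  `m > 0` with `ψ ≥ 2 m` on `B1 ∪ B2` (compact, `ψ > 0` there since they are disjoint from `K`; if empty, `m = 1`).
`l0` from `moll_const` for `B` and `η = m/2`; `l = l0 - m`... precisely: let `η = m / 4`, `l z = l0 z - m / 2`.  Then `f - m/2 ≤ l` everywhere, `l ≤ f - m/4` on `B`.  `δ = m / 8` (for `smax`).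
`u z = if infDist z K < r1 then smax δ (A' z) (l z) else l z`.
(i) if `r1/2 < infDist z K < r1`: `A' z ≤ f z - m ≤ l z - m/2`, so `|A' z - l z| ≥ δ` and `smax = max = l z` (`smax_eq`).  So `u = l` on the open set `{r1/2 < infDist}` and `u = smax δ A' l` on the open set `{infDist < r1}`; the two open sets cover the plane.
So `u` is `C^2` (`contDiff_iff_contDiffAt`, `smax_contDiff` composed with `(A', l)`), and locally convex: for `infDist z K < r1`: for small `v` the points `z ± v` are in the set and `smax_D2` with `pos_near` (`infDist z K < r0`) and `D2 l v z ≥ 0` (`l` convex);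
for `infDist z K > r1/2`: `D2 u v z = D2 l v z ≥ 0` for small `v`.  `loc_convex`: `u` is convex.
(ii) `z ∈ K`: `infDist z K = 0 < r1`, `A' z = f z`, `l z ≤ f z - m/4`: `A' z - l z ≥ m/4 ≥ δ`, `u z = max = f z`.
(iii) `z ∈ K'`: if `infDist z K < r1`: `z ∈ B2`, `A' z ≤ f z - m`, `l z ≤ f z - m/4`, `u z ≤ max (A' z) (l z) + δ/4 ≤ f z - m/4 + m/32 < f z`.  Otherwise `u z = l z ≤ f z - m/4 < f z`.
-/

set_option autoImplicit false

open Set Metric MeasureTheory

namespace Pool.Agent.MP_4eca41.R2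

private theorem nle (v : ℝ × ℝ) (ρ : ℝ) (hρ : 0 ≤ ρ) (h : sq v ≤ ρ ^ 2) : ‖v‖ ≤ ρ := by
  have h1 : ‖v‖ ^ 2 ≤ ρ ^ 2 := (T.norm_le_sq v).trans h
  by_contra hc
  push Not at hc
  nlinarith [norm_nonneg v]

private theorem D2_nonneg (l : ℝ × ℝ → ℝ) (hl : ConvexOn ℝ univ l) (v z : ℝ × ℝ) : 0 ≤ D2 l v z := by
  have h5 := hl.2 (mem_univ (z + v)) (mem_univ (z - v))
    (show (0 : ℝ) ≤ 1 / 2 by norm_num) (show (0 : ℝ) ≤ 1 / 2 by norm_num) (by norm_num)
  have h6 : (1 / 2 : ℝ) • (z + v) + (1 / 2 : ℝ) • (z - v) = z := by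
    ext <;> simp <;> ring
  rw [h6] at h5
  simp only [smul_eq_mul] at h5
  unfold D2
  linarith

private theorem nbhd_compact (K : Set (ℝ × ℝ)) (hK : IsCompact K) (hne : K.Nonempty) (r : ℝ) :
    IsCompact {z : ℝ × ℝ | infDist z K ≤ r} := by
  refine (hK.cthickening (r := r)).of_isClosed_subset
    (isClosed_le (continuous_infDist_pt K) continuous_const) ?_
  intro z hz
  obtain ⟨y, hy, hd⟩ := hK.exists_infDist_eq_dist hne z
  refine mem_cthickening_of_dist_le z y r K hy ?_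
  rw [← hd]
  exact hz

private theorem exp2_sub (A ψ : ℝ × ℝ → ℝ) (K : Set (ℝ × ℝ)) (J : Jets) (hE : Exp2 A K J)
    (h0 : ∀ z ∈ K, ψ z = 0) (hp : ∀ z, 0 ≤ ψ z)
    (hs : ∀ κ : ℝ, 0 < κ → ∃ δ : ℝ, 0 < δ ∧ ∀ z : ℝ × ℝ, infDist z K ≤ δ →
        ψ z ≤ κ * infDist z K ^ 2) : Exp2 (fun z => A z - ψ z) K J := by
  refine ⟨hE.cp, hE.cs, hE.ca, hE.cb, hE.cc, fun ε hε => ?_⟩
  obtain ⟨δ1, hδ1, hd1⟩ := hs (ε / 2) (by linarith)
  obtain ⟨δ2, hδ2, hd2⟩ := hE.ex (ε / 2) (by linarith)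
  refine ⟨min δ1 δ2, lt_min hδ1 hδ2, fun z hz v hv => ?_⟩
  have hm : 0 < min δ1 δ2 := lt_min hδ1 hδ2
  have hn := T.norm_le_sq v
  have hnv : ‖v‖ ≤ min δ1 δ2 := nle v _ hm.le hv
  have hi : infDist (z + v) K ≤ ‖v‖ := by
    have := infDist_le_dist_of_mem (x := z + v) hz
    rwa [dist_eq_norm, add_sub_cancel_left] at this
  have hi0 : 0 ≤ infDist (z + v) K := infDist_nonneg
  have ha := hd1 (z + v) (hi.trans (hnv.trans (min_le_left _ _)))
  have hb := hd2 z hz v (hv.trans (by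
    have := min_le_right δ1 δ2
    nlinarith))
  have hc : infDist (z + v) K ^ 2 ≤ sq v := by nlinarith
  have hq := hp (z + v)
  have e0 := h0 z hz
  rw [abs_le] at hb ⊢
  rw [e0]
  constructor
  · nlinarith [hb.1]
  · nlinarith [hb.2]

private theorem low_bd (ψ : ℝ × ℝ → ℝ) (hc : Continuous ψ) (B : Set (ℝ × ℝ)) (hB : IsCompact B)
    (hp : ∀ z ∈ B, 0 < ψ z) : ∃ m : ℝ, 0 < m ∧ ∀ z ∈ B, 2 * m ≤ ψ z := by
  rcases B.eq_empty_or_nonempty with h | h
  · exact ⟨1, one_pos, fun z hz => by rw [h] at hz; exact hz.elim⟩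
  · obtain ⟨y, hy, hm⟩ := hB.exists_isMinOn h hc.continuousOn
    refine ⟨ψ y / 2, by linarith [hp y hy], fun z hz => ?_⟩
    have := hm hz
    simp only [mem_ofPred_eq] at this
    linarith

theorem main (f : ℝ × ℝ → ℝ) (hf : ConvexOn ℝ univ f) (K : Set (ℝ × ℝ)) (hK : IsCompact K)
    (J : Jets) (hE : Exp2 f K J) (h0 : ∀ z ∈ K, 0 < J.a z ∧ J.b z ^ 2 < J.a z * J.c z)
    (K' : Set (ℝ × ℝ)) (hK' : IsCompact K') (hd : Disjoint K K') :
    ∃ u : ℝ × ℝ → ℝ, ConvexOn ℝ univ u ∧ ContDiff ℝ 2 u ∧ (∀ z ∈ K, u z = f z) ∧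
      ∀ z ∈ K', u z < f z := by
  have hc : Continuous f := continuousOn_univ.mp (hf.continuousOn isOpen_univ)
  rcases K.eq_empty_or_nonempty with hem | hne
  · subst hem
    obtain ⟨c, hcc⟩ : ∃ c : ℝ, ∀ z ∈ K', c < f z := by
      obtain ⟨b, hb⟩ := (hK'.image hc).bddBelow
      refine ⟨b - 1, fun z hz => ?_⟩
      have := hb (mem_image_of_mem f hz)
      linarith
    exact ⟨fun _ => c, convexOn_const c convex_univ, contDiff_const, fun z hz => hz.elim, hcc⟩
  obtain ⟨A, hA, hEA, hAK, hAf⟩ := c2ext f hc K hK hne J hE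
  obtain ⟨ψ, hψ, hψ0, hψpos, hψs, δ1, hδ1, hψh⟩ := psi_ex K hK hne (fun z => A z - f z) hAf
  have hψn : ∀ z, 0 ≤ ψ z := by
    intro z
    by_cases hz : z ∈ K
    · rw [hψ0 z hz]
    · exact (hψpos z hz).le
  obtain ⟨A', hA'def⟩ : ∃ A' : ℝ × ℝ → ℝ, A' = fun z => A z - ψ z := ⟨_, rfl⟩
  have hA' : ContDiff ℝ 2 A' := by
    rw [hA'def]
    exact hA.sub hψ
  have hEA' : Exp2 A' K J := by
    rw [hA'def]
    exact exp2_sub A ψ K J hEA hψ0 hψn hψs
  have hA'K : ∀ z ∈ K, A' z = f z := by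
    intro z hz
    rw [hA'def]
    simp only
    rw [hAK z hz, hψ0 z hz, sub_zero]
  have hA'le : ∀ z, infDist z K ≤ δ1 → A' z ≤ f z - ψ z / 2 := by
    intro z hz
    have h1 := hψh z hz
    have h2 := le_abs_self (A z - f z)
    rw [hA'def]
    simp only at h1 ⊢
    linarith
  obtain ⟨r0, hr0, hpos⟩ := pos_near A' hA' K hK hne J hEA' h0
  obtain ⟨r1, hr1def⟩ : ∃ r1 : ℝ, r1 = min r0 δ1 := ⟨_, rfl⟩
  have hr1 : 0 < r1 := by
    rw [hr1def]
    exact lt_min hr0 hδ1
  have hr10 : r1 ≤ r0 := by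
    rw [hr1def]
    exact min_le_left _ _
  have hr1δ : r1 ≤ δ1 := by
    rw [hr1def]
    exact min_le_right _ _
  have hcN := nbhd_compact K hK hne r1
  have hci : Continuous fun z : ℝ × ℝ => infDist z K := continuous_infDist_pt K
  have hc1 : IsCompact ({z : ℝ × ℝ | r1 / 2 ≤ infDist z K} ∩ {z : ℝ × ℝ | infDist z K ≤ r1}) :=
    hcN.inter_left (isClosed_le continuous_const hci)
  have hc2 : IsCompact (K' ∩ {z : ℝ × ℝ | infDist z K ≤ r1}) :=
    hK'.inter_right (isClosed_le hci continuous_const)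
  obtain ⟨m, hm, hmψ⟩ := low_bd ψ hψ.continuous _ (hc1.union hc2) (by
    rintro z (⟨h1, -⟩ | ⟨h1, -⟩)
    · refine hψpos z fun hz => ?_
      simp only [mem_ofPred_eq] at h1
      rw [infDist_zero_of_mem hz] at h1
      linarith
    · exact hψpos z fun hz => (disjoint_left.mp hd) hz h1)
  obtain ⟨l0, hl0, hl0c, hl0f, hl0B⟩ := moll_const f hf ({z : ℝ × ℝ | infDist z K ≤ r1} ∪ K')
    (hcN.union hK') (m / 4) (by linarith)
  obtain ⟨l, hldef⟩ : ∃ l : ℝ × ℝ → ℝ, l = fun z => l0 z + (-(m / 2)) := ⟨_, rfl⟩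
  have hl : ContDiff ℝ 2 l := by
    rw [hldef]
    exact hl0.add contDiff_const
  have hlc : ConvexOn ℝ univ l := by
    rw [hldef]
    exact hl0c.add_const _
  have hlf : ∀ z, f z - m / 2 ≤ l z := by
    intro z
    rw [hldef]
    have := hl0f z
    simp only
    linarith
  have hlB : ∀ z, (infDist z K ≤ r1 ∨ z ∈ K') → l z ≤ f z - m / 4 := by
    intro z hz
    rw [hldef]
    have := hl0B z hz
    simp only
    linarith
  obtain ⟨δ, hδdef⟩ : ∃ δ : ℝ, δ = m / 8 := ⟨_, rfl⟩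
  have hδ : 0 < δ := by linarith
  obtain ⟨u, hudef⟩ : ∃ u : ℝ × ℝ → ℝ,
    u = fun z => if infDist z K < r1 then smax δ (A' z) (l z) else l z := ⟨_, rfl⟩
  have hu1 : ∀ z, infDist z K < r1 → u z = smax δ (A' z) (l z) := by
    intro z hz
    rw [hudef]
    simp only
    rw [if_pos hz]
  have hu2 : ∀ z, r1 / 2 < infDist z K → u z = l z := by
    intro z hz
    rcases lt_or_ge (infDist z K) r1 with h1 | h1
    · rw [hu1 z h1]
      have h2 := hmψ z (Or.inl ⟨hz.le, h1.le⟩)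
      have h3 := hA'le z (h1.le.trans hr1δ)
      have h4 := hlf z
      rw [smax_eq δ hδ, max_eq_right (by linarith)]
      rw [abs_of_nonpos (by linarith)]
      linarith
    · rw [hudef]
      simp only
      rw [if_neg (not_lt.mpr h1)]
  have hlip : ∀ z w : ℝ × ℝ, infDist z K ≤ infDist w K + dist z w := fun z w =>
    infDist_le_infDist_add_dist
  have huC : ContDiff ℝ 2 u := by
    rw [contDiff_iff_contDiffAt]
    intro z
    rcases lt_or_ge (infDist z K) r1 with h1 | h1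
    · have h2 : ContDiff ℝ 2 fun z => smax δ (A' z) (l z) :=
        (smax_contDiff δ hδ).comp (hA'.prodMk hl)
      refine h2.contDiffAt.congr_of_eventuallyEq ?_
      have h3 : {z : ℝ × ℝ | infDist z K < r1} ∈ nhds z :=
        (isOpen_lt hci continuous_const).mem_nhds h1
      filter_upwards [h3] with w hw
      exact hu1 w hw
    · refine hl.contDiffAt.congr_of_eventuallyEq ?_
      have h3 : {z : ℝ × ℝ | r1 / 2 < infDist z K} ∈ nhds z :=
        (isOpen_lt continuous_const hci).mem_nhds (show r1 / 2 < infDist z K by linarith)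
      filter_upwards [h3] with w hw
      exact hu2 w hw
  refine ⟨u, ?_, huC, ?_, ?_⟩
  · refine loc_convex u huC.continuous fun z => ?_
    rcases lt_or_ge (infDist z K) r1 with h1 | h1
    · obtain ⟨ρ, hρ, hρv⟩ := hpos z (h1.trans_le hr10)
      have hg : 0 < (r1 - infDist z K) / 2 := by linarith
      refine ⟨min ρ ((r1 - infDist z K) / 2), lt_min hρ hg, fun v hv => ?_⟩
      have hm0 : 0 < min ρ ((r1 - infDist z K) / 2) := lt_min hρ hg
      have hn := nle v _ hm0.le hv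
      have hn1 := hn.trans (min_le_right _ _)
      have ha := hρv v (hv.trans (by
        have := min_le_left ρ ((r1 - infDist z K) / 2)
        nlinarith))
      have hb := D2_nonneg l hlc v z
      have h2 := smax_D2 δ hδ A' l v z ha hb
      have e1 : infDist (z + v) K < r1 := by
        have h3 := hlip (z + v) z
        rw [dist_eq_norm, add_sub_cancel_left] at h3
        linarith
      have e2 : infDist (z - v) K < r1 := by
        have h3 := hlip (z - v) z
        rw [dist_eq_norm, sub_sub_cancel_left, norm_neg] at h3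
        linarith
      unfold D2 at h2 ⊢
      rw [hu1 _ e1, hu1 _ e2, hu1 _ h1]
      exact h2
    · refine ⟨r1 / 4, by linarith, fun v hv => ?_⟩
      have hn := nle v _ (by linarith) hv
      have h2 := D2_nonneg l hlc v z
      have e1 : r1 / 2 < infDist (z + v) K := by
        have h3 := hlip z (z + v)
        rw [dist_eq_norm, sub_add_cancel_left, norm_neg] at h3
        linarith
      have e2 : r1 / 2 < infDist (z - v) K := by
        have h3 := hlip z (z - v)
        rw [dist_eq_norm, sub_sub_cancel] at h3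
        linarith
      unfold D2 at h2 ⊢
      rw [hu2 _ e1, hu2 _ e2, hu2 _ (by linarith)]
      exact h2
  · intro z hz
    have h1 : infDist z K = 0 := infDist_zero_of_mem hz
    rw [hu1 z (by rw [h1]; exact hr1)]
    have h2 := hA'K z hz
    have h3 := hlB z (Or.inl (by rw [h1]; exact hr1.le))
    rw [smax_eq δ hδ, max_eq_left (by linarith), h2]
    rw [abs_of_nonneg (by linarith)]
    linarith
  · intro z hz
    have h3 := hlB z (Or.inr hz)
    rcases lt_or_ge (infDist z K) r1 with h1 | h1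
    · rw [hu1 z h1]
      have h2 := hmψ z (Or.inr ⟨hz, h1.le⟩)
      have h4 := hA'le z (h1.le.trans hr1δ)
      have h5 := smax_le δ hδ (A' z) (l z)
      have h6 : max (A' z) (l z) ≤ f z - m / 4 := max_le (by linarith) h3
      linarith
    · rw [hu2 z (by linarith)]
      linarith

end Pool.Agent.MP_4eca41.R2
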