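import Pool.Agent.Work.MP_4eca41_an.T.KDefs

/-!
# Block R2: the radius function adapted to `f`.  FIXED definitions.
-/

set_option autoImplicit false

open Set Metric Filter

namespace Pool.Agent.MP_4eca41.R2

/-- A radius function `r`, zero on `K`, with the moduli `e k` at distance about `(1/2)^k` from `K`, large against the modulus of the expansions of `f` on `K`. -/
structure RD (f : ℝ × ℝ → ℝ) (K : Set (ℝ × ℝ)) (J : Jets) (e : ℕ → ℝ) (r : ℝ × ℝ → ℝ) (C : ℝ) : Prop where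
  cont : Continuous r
  sm : ContDiffOn ℝ 2 r Kᶜ
  zero : ∀ z ∈ K, r z = 0
  pos : ∀ z, z ∉ K → 0 < r z
  C0 : 0 < C
  anti : Antitone e
  epos : ∀ k, 0 < e k
  e0 : e 0 ≤ 1 / 8
  lim : Tendsto e atTop (nhds 0)
  low : ∀ (k : ℕ) (z : ℝ × ℝ), (1 / 2 : ℝ) ^ (k + 1) ≤ infDist z K → infDist z K ≤ (1 / 2 : ℝ) ^ k →
    e (k + 1) / 2 * infDist z K ≤ r z
  upp : ∀ (k : ℕ) (z : ℝ × ℝ), (1 / 2 : ℝ) ^ (k + 1) ≤ infDist z K → infDist z K ≤ (1 / 2 : ℝ) ^ k →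
    r z ≤ 4 * e k * infDist z K
  d1 : ∀ (k : ℕ) (z : ℝ × ℝ), (1 / 2 : ℝ) ^ (k + 1) ≤ infDist z K → infDist z K ≤ (1 / 2 : ℝ) ^ k →
    ‖fderiv ℝ r z‖ ≤ C * e k
  d2 : ∀ (k : ℕ) (z : ℝ × ℝ), (1 / 2 : ℝ) ^ (k + 1) ≤ infDist z K → infDist z K ≤ (1 / 2 : ℝ) ^ k →
    r z * ‖iteratedFDeriv ℝ 2 r z‖ ≤ C * e k ^ 2
  d1' : ∀ z, z ∉ K → ‖fderiv ℝ r z‖ ≤ 1
  d2' : ∀ z, z ∉ K → r z * ‖iteratedFDeriv ℝ 2 r z‖ ≤ 1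
  mod : ∃ k0 : ℕ, ∀ k, k0 ≤ k → ∀ y ∈ K, ∀ v : ℝ × ℝ, sq v ≤ 16 * (1 / 4 : ℝ) ^ k →
    |f (y + v) - f y - J.q y v| ≤ e (k + 1) ^ 4 * sq v

end Pool.Agent.MP_4eca41.R2
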