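import Pool.Agent.Work.MP_4eca41_an.T.Ker2
import Pool.Agent.Work.MP_4eca41_an.T.Tay

/-!
# Block R2: mollification of a polynomial of degree two; linearity; second differences of the square of the radius

PROOF.  (`mol2_quad`) `m` from `T.phi2_m2`.  Expand `J.q y (z + r z • s - y)` in `s`: value at `z`, terms linear in `s` (integral zero by `phi2_m1`), and `(r z)^2 * (J.a y s1^2 + 2 J.b y s1 s2 + J.c y s2^2) / 2`; integrate with `phi2_integral`, `phi2_m2`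
(all functions polynomial times `phi2` are integrable: `phi2_int` or continuous with compact support).
(`mol2_add`) `integral_add` with `phi2_int`.
(`sq_r`) Let `η' > 0` be small.  `T.tay1`, `T.tay2` for `r` with `η'`: `|r (z ± v) - r z| ≤ (‖fderiv‖ + η') ‖v‖`, `|D2 r v z| ≤ (‖iteratedFDeriv ℝ 2 r z‖ + η') ‖v‖^2` (`ContinuousMultilinearMap.le_opNorm`, product over `Fin 2`).  Identity:
`r(z+v)^2 + r(z-v)^2 - 2 r(z)^2 = 2 r(z) D2 r v z + (r(z+v) - r z)^2 + (r(z-v) - r z)^2`.  Choose `η'` with `2 r z η' + 2 (2 ‖fderiv‖ η' + η'^2) ≤ η`.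
-/

set_option autoImplicit false

open Set MeasureTheory

namespace Pool.Agent.MP_4eca41.R2

private theorem quad_int (g : ℝ × ℝ → ℝ) (hg : Continuous g) :
    Integrable fun s : ℝ × ℝ => g s * T.phi2 s := by
  have h := T.phi2_int g hg 0 1
  simpa only [one_smul, zero_add] using h

theorem mol2_quad : ∃ m : ℝ, 0 < m ∧ ∀ (c : ℝ) (J : Jets) (y : ℝ × ℝ) (r : ℝ × ℝ → ℝ) (z : ℝ × ℝ),
    T.mol2 (fun z' => c + J.q y (z' - y)) r z =
      c + J.q y (z - y) + m / 2 * (J.a y + J.c y) * r z ^ 2 := by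
  obtain ⟨m, hm, h11, h22, h12⟩ := T.phi2_m2
  obtain ⟨h1, h2⟩ := T.phi2_m1
  refine ⟨m, hm, fun c J y r z => ?_⟩
  have i0 : Integrable fun s : ℝ × ℝ => T.phi2 s := T.phi2_integrable
  have i1 : Integrable fun s : ℝ × ℝ => s.1 * T.phi2 s := quad_int _ continuous_fst
  have i2 : Integrable fun s : ℝ × ℝ => s.2 * T.phi2 s := quad_int _ continuous_snd
  have i11 : Integrable fun s : ℝ × ℝ => s.1 ^ 2 * T.phi2 s := quad_int _ (by fun_prop)
  have i22 : Integrable fun s : ℝ × ℝ => s.2 ^ 2 * T.phi2 s := quad_int _ (by fun_prop)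
  have i12 : Integrable fun s : ℝ × ℝ => s.1 * s.2 * T.phi2 s := quad_int _ (by fun_prop)
  unfold T.mol2
  have e : ∀ s : ℝ × ℝ, (c + J.q y (z + r z • s - y)) * T.phi2 s =
      (c + J.q y (z - y)) * T.phi2 s +
      (r z * (J.p y + J.a y * (z.1 - y.1) + J.b y * (z.2 - y.2))) * (s.1 * T.phi2 s) +
      (r z * (J.s y + J.b y * (z.1 - y.1) + J.c y * (z.2 - y.2))) * (s.2 * T.phi2 s) +
      (r z ^ 2 * J.a y / 2) * (s.1 ^ 2 * T.phi2 s) +
      (r z ^ 2 * J.b y) * (s.1 * s.2 * T.phi2 s) +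
      (r z ^ 2 * J.c y / 2) * (s.2 ^ 2 * T.phi2 s) := by
    intro s
    simp only [Jets.q, Prod.fst_sub, Prod.snd_sub, Prod.fst_add, Prod.snd_add, Prod.smul_fst,
      Prod.smul_snd, smul_eq_mul]
    ring
  simp only [e]
  rw [integral_add, integral_add, integral_add, integral_add, integral_add,
    integral_const_mul, integral_const_mul, integral_const_mul, integral_const_mul,
    integral_const_mul, integral_const_mul, T.phi2_integral, h1, h2, h11, h22, h12]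
  · ring
  · exact i0.const_mul _
  · exact i1.const_mul _
  · exact (i0.const_mul _).add (i1.const_mul _)
  · exact i2.const_mul _
  · exact ((i0.const_mul _).add (i1.const_mul _)).add (i2.const_mul _)
  · exact i11.const_mul _
  · exact (((i0.const_mul _).add (i1.const_mul _)).add (i2.const_mul _)).add (i11.const_mul _)
  · exact i12.const_mul _
  · exact ((((i0.const_mul _).add (i1.const_mul _)).add (i2.const_mul _)).add
      (i11.const_mul _)).add (i12.const_mul _)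
  · exact i22.const_mul _

theorem mol2_add (g h r : ℝ × ℝ → ℝ) (hg : Continuous g) (hh : Continuous h) (z : ℝ × ℝ) :
    T.mol2 (fun z' => g z' + h z') r z = T.mol2 g r z + T.mol2 h r z := by
  unfold T.mol2
  rw [← integral_add (T.phi2_int g hg z (r z)) (T.phi2_int h hh z (r z))]
  refine integral_congr_ae (Filter.Eventually.of_forall fun s => ?_)
  simp only
  ring

theorem sq_r (r : ℝ × ℝ → ℝ) (z : ℝ × ℝ) (hr : ContDiffAt ℝ 2 r z) (h0 : 0 ≤ r z) (η : ℝ) (hη : 0 < η) :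
    ∃ ρ : ℝ, 0 < ρ ∧ ∀ v : ℝ × ℝ, sq v ≤ ρ ^ 2 → |D2 (fun z' => r z' ^ 2) v z| ≤
      (2 * (r z * ‖iteratedFDeriv ℝ 2 r z‖) + 2 * ‖fderiv ℝ r z‖ ^ 2 + η) * sq v := by
  set N1 := ‖fderiv ℝ r z‖ with hN1
  set N2 := ‖iteratedFDeriv ℝ 2 r z‖ with hN2
  have n1 : 0 ≤ N1 := norm_nonneg _
  have n2 : 0 ≤ N2 := norm_nonneg _
  have hden : 0 < 2 * r z + 4 * N1 + 2 := by positivity
  set η' : ℝ := min 1 (η / (2 * r z + 4 * N1 + 2)) with hη'
  have hη0 : 0 < η' := lt_min one_pos (by positivity)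
  have hη1 : η' ≤ 1 := min_le_left _ _
  have hη2 : η' * (2 * r z + 4 * N1 + 2) ≤ η := by
    have h1 : η' ≤ η / (2 * r z + 4 * N1 + 2) := min_le_right _ _
    calc η' * (2 * r z + 4 * N1 + 2) ≤ η / (2 * r z + 4 * N1 + 2) * (2 * r z + 4 * N1 + 2) :=
          mul_le_mul_of_nonneg_right h1 hden.le
      _ = η := by field_simp
  obtain ⟨ρ1, hρ1, h1⟩ := T.tay1 r z hr η' hη0
  obtain ⟨ρ2, hρ2, h2⟩ := T.tay2 r z hr η' hη0
  refine ⟨min ρ1 ρ2, lt_min hρ1 hρ2, fun v hv => ?_⟩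
  have hv1 : sq v ≤ ρ1 ^ 2 :=
    hv.trans (pow_le_pow_left₀ (lt_min hρ1 hρ2).le (min_le_left _ _) 2)
  have hv2 : sq v ≤ ρ2 ^ 2 :=
    hv.trans (pow_le_pow_left₀ (lt_min hρ1 hρ2).le (min_le_right _ _) 2)
  have hv1' : sq (-v) ≤ ρ1 ^ 2 := by
    have : sq (-v) = sq v := by simp [sq]
    rw [this]
    exact hv1
  have a1 := h1 v hv1
  have a2 := h1 (-v) hv1'
  have a3 := h2 v hv2
  rw [norm_neg, ← sub_eq_add_neg] at a2
  have hnv : ‖v‖ ^ 2 ≤ sq v := T.norm_le_sq v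
  have a4 : |iteratedFDeriv ℝ 2 r z ![v, v]| ≤ N2 * ‖v‖ ^ 2 := by
    have h3 := (iteratedFDeriv ℝ 2 r z).le_opNorm ![v, v]
    rw [Real.norm_eq_abs] at h3
    refine h3.trans (le_of_eq ?_)
    simp [Fin.prod_univ_two, pow_two, hN2]
  have a5 : |D2 r v z| ≤ (N2 + η') * ‖v‖ ^ 2 := by
    have h3 : |D2 r v z| ≤ |D2 r v z - iteratedFDeriv ℝ 2 r z ![v, v]| +
        |iteratedFDeriv ℝ 2 r z ![v, v]| := by
      have h4 := abs_add_le (D2 r v z - iteratedFDeriv ℝ 2 r z ![v, v])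
        (iteratedFDeriv ℝ 2 r z ![v, v])
      rwa [sub_add_cancel] at h4
    linarith
  have b1 : (r (z + v) - r z) ^ 2 ≤ (N1 + η') ^ 2 * ‖v‖ ^ 2 := by
    rw [← mul_pow, ← sq_abs (r (z + v) - r z)]
    exact pow_le_pow_left₀ (abs_nonneg _) a1 2
  have b2 : (r (z - v) - r z) ^ 2 ≤ (N1 + η') ^ 2 * ‖v‖ ^ 2 := by
    rw [← mul_pow, ← sq_abs (r (z - v) - r z)]
    exact pow_le_pow_left₀ (abs_nonneg _) a2 2
  have b3 : D2 (fun z' => r z' ^ 2) v z =
      2 * r z * D2 r v z + (r (z + v) - r z) ^ 2 + (r (z - v) - r z) ^ 2 := by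
    unfold D2
    ring
  have b4 : |2 * r z * D2 r v z| ≤ 2 * r z * ((N2 + η') * ‖v‖ ^ 2) := by
    rw [abs_mul, abs_of_nonneg (by positivity : 0 ≤ 2 * r z)]
    exact mul_le_mul_of_nonneg_left a5 (by positivity)
  have b5 : |D2 (fun z' => r z' ^ 2) v z| ≤
      (2 * r z * (N2 + η') + 2 * (N1 + η') ^ 2) * ‖v‖ ^ 2 := by
    rw [b3]
    have h3 := abs_add_le (2 * r z * D2 r v z + (r (z + v) - r z) ^ 2) ((r (z - v) - r z) ^ 2)
    have h4 := abs_add_le (2 * r z * D2 r v z) ((r (z + v) - r z) ^ 2)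
    rw [abs_of_nonneg (sq_nonneg (r (z - v) - r z))] at h3
    rw [abs_of_nonneg (sq_nonneg (r (z + v) - r z))] at h4
    linarith
  refine b5.trans ?_
  have c1 : 2 * r z * (N2 + η') + 2 * (N1 + η') ^ 2 ≤ 2 * (r z * N2) + 2 * N1 ^ 2 + η := by
    have h3 : η' ^ 2 ≤ η' := by nlinarith
    nlinarith
  have c2 : 0 ≤ 2 * (r z * N2) + 2 * N1 ^ 2 + η := by positivity
  exact mul_le_mul c1 hnv (by positivity) c2

end Pool.Agent.MP_4eca41.R2
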