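import Pool.Agent.Work.MP_4eca41_an.R2.Defs
import Pool.Agent.Work.MP_4eca41_an.R2.Quad

/-!
# Block R2: the mollification is close to `f` near `K`

STATEMENT FIXED (helper49).

PROOF.  `m` from `mol2_quad`, `B ≥ 1` a bound of `|J.a|`, `|J.c|` on `K`, `k0` from `h.mod`.  Let `z` be a point, `d = infDist z K`.  If `z ∈ K` then `r z = 0`, `mol2 f r z = ∫ f z * phi2 s = f z`.  Otherwise let `d ≤ (1/2)^k0` (so `d < 1`) and `k ≥ k0` with
`(1/2)^(k+1) ≤ d ≤ (1/2)^k`, `y ∈ K` with `dist z y = d` (`IsCompact.exists_infDist_eq_dist`), `T z' = f y + J.q y (z' - y)`, `E = f - T`.  For `‖s‖ ≤ 1/2`: `z' = z + r z • s` satisfies `‖z' - y‖ ≤ d + r z / 2 ≤ (5/4) d` (`r z ≤ 4 (1/8) d = d/2`), `sq (z' - y) ≤ 2 ‖z' - y‖^2 ≤ 4 d^2 ≤ 16 (1/4)^k`, so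
`|E z'| ≤ 4 (e (k+1))^4 d^2`; the same for `z' = z`.  `mol2 f r z - f z = (mol2 T r z - T z) + (mol2 E r z - E z)`; first bracket `= m/2 (J.a y + J.c y) (r z)^2`, `≤ m B (4 e k d)^2`; second bracket `≤ 8 (e (k+1))^4 d^2`
(`phi2 s = 0` for `‖s‖ ≥ 1/2`, `∫ phi2 = 1`).  Total `≤ (16 m B + 8) (e k)^2 d^2` (`e (k+1) ≤ e k ≤ 1`).  Given `κ`, let `k1 ≥ k0` with `(16 m B + 8) (e k)^2 ≤ κ` for `k ≥ k1`, and `δ = (1/2)^(k1+1)`: `infDist z K ≤ δ` forces `k ≥ k1`
(or choose `k` suitably).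
-/

set_option autoImplicit false

open Set Metric Filter

namespace Pool.Agent.MP_4eca41.R2

private theorem exta_E (g : ℝ × ℝ → ℝ) (r : ℝ × ℝ → ℝ) (z : ℝ × ℝ) (b : ℝ)
    (h : ∀ s : ℝ × ℝ, |s.1| < 1 / 2 → |s.2| < 1 / 2 → |g (z + r z • s)| ≤ b) :
    |T.mol2 g r z| ≤ b := by
  unfold T.mol2
  have h1 := MeasureTheory.norm_integral_le_of_norm_le (μ := MeasureTheory.volume)
    (f := fun s : ℝ × ℝ => g (z + r z • s) * T.phi2 s) (g := fun s => b * T.phi2 s)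
    (T.phi2_integrable.const_mul b) (Filter.Eventually.of_forall fun s => by
      by_cases h2 : |s.1| < 1 / 2 ∧ |s.2| < 1 / 2
      · rw [norm_mul, Real.norm_eq_abs, Real.norm_eq_abs, abs_of_nonneg (T.phi2_nonneg s)]
        exact mul_le_mul_of_nonneg_right (h s h2.1 h2.2) (T.phi2_nonneg s)
      · have h3 : T.phi2 s = 0 := by
          apply T.phi2_zero
          by_contra h4
          push Not at h4
          exact h2 h4
        rw [h3, mul_zero, mul_zero, norm_zero])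
  rw [MeasureTheory.integral_const_mul, T.phi2_integral, mul_one, Real.norm_eq_abs] at h1
  exact h1

private theorem exta_norm (s : ℝ × ℝ) (h1 : |s.1| < 1 / 2) (h2 : |s.2| < 1 / 2) :
    ‖s‖ ≤ 1 / 2 := by
  rw [Prod.norm_def, Real.norm_eq_abs, Real.norm_eq_abs]
  exact max_le h1.le h2.le

theorem extA (f : ℝ × ℝ → ℝ) (hf : Continuous f) (K : Set (ℝ × ℝ)) (hK : IsCompact K)
    (hne : K.Nonempty) (J : Jets) (hE : Exp2 f K J) (e : ℕ → ℝ) (r : ℝ × ℝ → ℝ) (C : ℝ)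
    (h : RD f K J e r C) :
    (∀ z ∈ K, T.mol2 f r z = f z) ∧ ∀ κ : ℝ, 0 < κ → ∃ δ : ℝ, 0 < δ ∧ ∀ z : ℝ × ℝ,
      infDist z K ≤ δ → |T.mol2 f r z - f z| ≤ κ * infDist z K ^ 2 := by
  have hzero : ∀ z ∈ K, T.mol2 f r z = f z := by
    intro z hz
    unfold T.mol2
    simp only [h.zero z hz, zero_smul, add_zero]
    rw [MeasureTheory.integral_const_mul, T.phi2_integral, mul_one]
  refine ⟨hzero, fun κ hκ => ?_⟩
  obtain ⟨m, hm, hquad⟩ := mol2_quad
  obtain ⟨Ba, hBa⟩ := hK.exists_bound_of_continuousOn hE.ca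
  obtain ⟨Bc, hBc⟩ := hK.exists_bound_of_continuousOn hE.cc
  obtain ⟨k0, hk0⟩ := h.mod
  set B : ℝ := |Ba| + |Bc| with hB
  have hB0 : 0 ≤ B := by positivity
  have hD : 0 < 16 * m * B + 8 := by positivity
  have hε : 0 < min 1 (κ / (16 * m * B + 8)) := lt_min one_pos (by positivity)
  have hev := h.lim.eventually_le_const hε
  obtain ⟨k2, hk2⟩ := Filter.eventually_atTop.1 hev
  set k1 := max k0 k2 with hk1
  refine ⟨(1 / 2 : ℝ) ^ (k1 + 1), by positivity, fun z hz => ?_⟩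
  by_cases hzK : z ∈ K
  · rw [hzero z hzK, sub_self, abs_zero]
    positivity
  have hd0 : 0 < infDist z K := (hK.isClosed.notMem_iff_infDist_pos hne).1 hzK
  set d := infDist z K with hd
  have hd1 : d ≤ 1 := hz.trans (pow_le_one₀ (by norm_num) (by norm_num))
  obtain ⟨k, hka, hkb⟩ := exists_nat_pow_near_of_lt_one hd0 hd1 (by norm_num : (0 : ℝ) < 1 / 2)
    (by norm_num : (1 / 2 : ℝ) < 1)
  have hkk : k1 ≤ k := by
    by_contra hcon
    have h1 : k + 1 ≤ k1 := by omega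
    have h2 : (1 / 2 : ℝ) ^ (k1 + 1) ≤ (1 / 2 : ℝ) ^ (k + 1) :=
      pow_le_pow_of_le_one (by norm_num) (by norm_num) (by omega)
    linarith
  obtain ⟨y, hyK, hy⟩ := hK.exists_infDist_eq_dist hne z
  have hyd : ‖z - y‖ = d := by rw [hd, hy, dist_eq_norm]
  have hek : 0 < e k := h.epos k
  have hek1 : 0 < e (k + 1) := h.epos (k + 1)
  have he8 : e k ≤ 1 / 8 := (h.anti (Nat.zero_le k)).trans h.e0
  have hee : e (k + 1) ≤ e k := h.anti (Nat.le_succ k)
  have hr4 : r z ≤ 4 * e k * d := h.upp k z hka.le hkb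
  have hr0 : 0 < r z := h.pos z hzK
  have hr2 : r z ≤ d / 2 := by nlinarith
  have hd4 : d ^ 2 ≤ (1 / 4 : ℝ) ^ k := by
    have h1 := pow_le_pow_left₀ hd0.le hkb 2
    have h2 : ((1 / 2 : ℝ) ^ k) ^ 2 = (1 / 4 : ℝ) ^ k := by
      rw [← pow_mul, mul_comm, pow_mul]
      norm_num
    rwa [h2] at h1
  have hsq : ∀ v : ℝ × ℝ, ‖v‖ ≤ 5 / 4 * d → sq v ≤ 4 * d ^ 2 := by
    intro v hv
    have h1 := T.sq_le_norm v
    have h2 := pow_le_pow_left₀ (norm_nonneg v) hv 2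
    nlinarith [sq_nonneg d]
  have hEv : ∀ v : ℝ × ℝ, ‖v‖ ≤ 5 / 4 * d →
      |f (y + v) - f y - J.q y v| ≤ 4 * e (k + 1) ^ 4 * d ^ 2 := by
    intro v hv
    have h1 := hsq v hv
    have h2 := hk0 k ((le_max_left k0 k2).trans hkk) y hyK v (by
      have : 0 ≤ (1 / 4 : ℝ) ^ k := by positivity
      linarith)
    refine h2.trans ?_
    calc e (k + 1) ^ 4 * sq v ≤ e (k + 1) ^ 4 * (4 * d ^ 2) :=
          mul_le_mul_of_nonneg_left h1 (by positivity)
      _ = 4 * e (k + 1) ^ 4 * d ^ 2 := by ring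
  set g : ℝ × ℝ → ℝ := fun z' => f y + J.q y (z' - y) with hg
  have hgc : Continuous g := by
    rw [hg]
    unfold Jets.q
    fun_prop
  have hEc : Continuous fun z' => f z' - g z' := hf.sub hgc
  have hEb : ∀ z' : ℝ × ℝ, ‖z' - y‖ ≤ 5 / 4 * d →
      |f z' - g z'| ≤ 4 * e (k + 1) ^ 4 * d ^ 2 := by
    intro z' hz'
    have h1 := hEv (z' - y) hz'
    rw [add_sub_cancel] at h1
    have h2 : f z' - g z' = f z' - f y - J.q y (z' - y) := by
      simp only [hg]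
      ring
    rw [h2]
    exact h1
  have hsum : T.mol2 f r z = T.mol2 g r z + T.mol2 (fun z' => f z' - g z') r z := by
    rw [← mol2_add g _ r hgc hEc z]
    congr 1
    funext z'
    ring
  have hE1 : |T.mol2 (fun z' => f z' - g z') r z| ≤ 4 * e (k + 1) ^ 4 * d ^ 2 := by
    apply exta_E
    intro s h1 h2
    apply hEb
    have h3 : z + r z • s - y = (z - y) + r z • s := by abel
    rw [h3]
    refine (norm_add_le _ _).trans ?_
    rw [norm_smul, Real.norm_eq_abs, abs_of_pos hr0, hyd]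
    have h4 := exta_norm s h1 h2
    nlinarith [norm_nonneg s]
  have hE2 : |f z - g z| ≤ 4 * e (k + 1) ^ 4 * d ^ 2 := by
    apply hEb
    rw [hyd]
    linarith
  have hQ : T.mol2 g r z = g z + m / 2 * (J.a y + J.c y) * r z ^ 2 := hquad (f y) J y r z
  have hac : |J.a y + J.c y| ≤ B := by
    have h1 := hBa y hyK
    have h2 := hBc y hyK
    rw [Real.norm_eq_abs] at h1 h2
    exact (abs_add_le _ _).trans (add_le_add (h1.trans (le_abs_self _)) (h2.trans (le_abs_self _)))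
  have hr16 : r z ^ 2 ≤ 16 * e k ^ 2 * d ^ 2 := by
    have h1 := pow_le_pow_left₀ hr0.le hr4 2
    refine h1.trans (le_of_eq ?_)
    ring
  have hQ1 : |m / 2 * (J.a y + J.c y) * r z ^ 2| ≤ m / 2 * B * (16 * e k ^ 2 * d ^ 2) := by
    rw [abs_mul, abs_mul, abs_of_pos (by positivity : 0 < m / 2), abs_of_nonneg (sq_nonneg (r z))]
    exact mul_le_mul (mul_le_mul_of_nonneg_left hac (by positivity)) hr16 (sq_nonneg _)
      (by positivity)
  have hmain : T.mol2 f r z - f z = m / 2 * (J.a y + J.c y) * r z ^ 2 +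
      (T.mol2 (fun z' => f z' - g z') r z - (f z - g z)) := by
    rw [hsum, hQ]
    ring
  have h4le : e (k + 1) ^ 4 ≤ e k ^ 2 := by
    have h1 := pow_le_pow_left₀ hek1.le hee 4
    have h2 : e k ^ 2 ≤ 1 := by nlinarith
    nlinarith [sq_nonneg (e k)]
  have hfin : |T.mol2 f r z - f z| ≤ (16 * m * B + 8) * e k ^ 2 * d ^ 2 := by
    rw [hmain]
    have h1 := abs_add_le (m / 2 * (J.a y + J.c y) * r z ^ 2)
      (T.mol2 (fun z' => f z' - g z') r z - (f z - g z))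
    have h2 := abs_sub (T.mol2 (fun z' => f z' - g z') r z) (f z - g z)
    have h3 : 0 ≤ d ^ 2 := sq_nonneg d
    have h5 : e (k + 1) ^ 4 * d ^ 2 ≤ e k ^ 2 * d ^ 2 := mul_le_mul_of_nonneg_right h4le h3
    have h6 : 0 ≤ m * B * (e k ^ 2 * d ^ 2) := by positivity
    have h7 : m / 2 * B * (16 * e k ^ 2 * d ^ 2) = 8 * (m * B * (e k ^ 2 * d ^ 2)) := by ring
    have h8 : (16 * m * B + 8) * e k ^ 2 * d ^ 2 =
        16 * (m * B * (e k ^ 2 * d ^ 2)) + 8 * (e k ^ 2 * d ^ 2) := by ring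
    rw [h8]
    rw [h7] at hQ1
    linarith
  have hek2 := hk2 k ((le_max_right k0 k2).trans hkk)
  have hεκ : (16 * m * B + 8) * e k ^ 2 ≤ κ := by
    have h1 : e k ≤ κ / (16 * m * B + 8) := hek2.trans (min_le_right _ _)
    have h2 : e k ≤ 1 := hek2.trans (min_le_left _ _)
    have h3 : e k ^ 2 ≤ e k := by nlinarith
    calc (16 * m * B + 8) * e k ^ 2 ≤ (16 * m * B + 8) * (κ / (16 * m * B + 8)) :=
          mul_le_mul_of_nonneg_left (h3.trans h1) hD.le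
      _ = κ := by field_simp
  exact hfin.trans (mul_le_mul_of_nonneg_right hεκ (sq_nonneg d))

end Pool.Agent.MP_4eca41.R2
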