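import Pool.Agent.Work.MP_4eca41_an.R2.Defs
import Pool.Agent.Work.MP_4eca41_an.R2.Quad
import Pool.Agent.Work.MP_4eca41_an.T.MolB

/-!
# Block R2: the second derivative of the mollification near `K`

STATEMENT FIXED (helper49).

PROOF.  `m` from `mol2_quad`, `C₂` from `T.mol2_bound`, `B ≥ 1` a bound of `|J.a|`, `|J.c|` on `K`.  Let `z ∉ K`, `d = infDist z K`, `(1/2)^(k+1) ≤ d ≤ (1/2)^k`, `k ≥ k0` (`h.mod`), `y ∈ K` with `dist z y = d`, `T z' = f y + J.q y (z' - y)`, `E = f - T` (continuous).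
`mol2 f r = mol2 T r + mol2 E r` (`mol2_add`), `mol2 T r z' = T z' + m/2 (J.a y + J.c y) (r z')^2` for all `z'`.  `D2 T v z = J.a y v1^2 + 2 J.b y v1 v2 + J.c y v2^2`.
By `sq_r` (`r` is `C^2` at `z`, `Kᶜ` open) and `h.d1`, `h.d2`: `|D2 (r^2) v z| ≤ ((2 C + 2 C^2) (e k)^2 + η) sq v` for small `v`.
`E`: for `‖z' - z‖ ≤ r z` (`≤ d/2`): `‖z' - y‖ ≤ (3/2) d`, `sq (z' - y) ≤ (9/2) d^2 ≤ 16 (1/4)^k`, so `|E z'| ≤ (9/2) (e (k+1))^4 d^2`; `T.mol2_bound` (with `h.d1'`, `h.d2'`) gives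
`‖iteratedFDeriv ℝ 2 (mol2 E r) z‖ ≤ C₂ (9/2) (e (k+1))^4 d^2 / (r z)^2 ≤ 18 C₂ (e (k+1))^2` (`r z ≥ e (k+1) d / 2`).  `mol2 E r` is `C^2` at `z` (`T.mol2_contDiffOn`), `T.tay2` (with `η`): `|D2 (mol2 E r) v z| ≤ (18 C₂ (e (k+1))^2 + η) ‖v‖^2` for small `v`,
`‖v‖^2 ≤ sq v`.  Together: `|D2 (mol2 f r) v z - H(y)[v,v]| ≤ (A (e k)^2 + 2 η (1 + m B)) sq v`, `A = m B (2 C + 2 C^2) + 18 C₂`.
Let `y0 ∈ K`, `κ > 0`.  If `z ∈ cb y0 δ`, then `d ≤ dist z y0 ≤ δ`, `dist y y0 ≤ 2 δ`; by continuity of `J.a, J.b, J.c` on `K` at `y0` the forms `H(y)` and `H(y0)` differ by at most `κ/4 * sq v` for small `δ`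
(each coefficient by at most `κ/16`); `δ` so small that `k` is large and `A (e k)^2 ≤ κ/4`; `η` with `2 η (1 + m B) ≤ κ/4`.
-/

set_option autoImplicit false

open Set Metric Filter

namespace Pool.Agent.MP_4eca41.R2

private theorem extB_E {f : ℝ × ℝ → ℝ} {K : Set (ℝ × ℝ)} {J : Jets} {e : ℕ → ℝ} {r : ℝ × ℝ → ℝ}
    {C : ℝ} (h : RD f K J e r C) {k : ℕ}
    (hk : ∀ y ∈ K, ∀ v : ℝ × ℝ, sq v ≤ 16 * (1 / 4 : ℝ) ^ k →
      |f (y + v) - f y - J.q y v| ≤ e (k + 1) ^ 4 * sq v) {z y : ℝ × ℝ} (hz : z ∉ K)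
    (hd1 : (1 / 2 : ℝ) ^ (k + 1) ≤ infDist z K) (hd2 : infDist z K ≤ (1 / 2 : ℝ) ^ k) (hy : y ∈ K)
    (hzy : infDist z K = dist z y) (z' : ℝ × ℝ) (hz' : ‖z' - z‖ ≤ r z) :
    |f z' - (f y + J.q y (z' - y))| ≤ 9 / 2 * e (k + 1) ^ 4 * infDist z K ^ 2 := by
  have hd0 : 0 ≤ infDist z K := infDist_nonneg
  have he : e k ≤ 1 / 8 := (h.anti (Nat.zero_le k)).trans h.e0
  have hr := h.upp k z hd1 hd2
  have hr2 : r z ≤ infDist z K / 2 := by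
    have h1 : 4 * e k * infDist z K ≤ 4 * (1 / 8) * infDist z K :=
      mul_le_mul_of_nonneg_right (by linarith) hd0
    linarith
  have h1 : ‖z' - y‖ ≤ 3 / 2 * infDist z K := by
    have e1 : z' - y = (z' - z) + (z - y) := by abel
    have h2 := norm_add_le (z' - z) (z - y)
    rw [← e1, ← dist_eq_norm z y, ← hzy] at h2
    linarith
  have h2 : sq (z' - y) ≤ 9 / 2 * infDist z K ^ 2 := by
    have h3 := T.sq_le_norm (z' - y)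
    have h4 : ‖z' - y‖ ^ 2 ≤ (3 / 2 * infDist z K) ^ 2 :=
      pow_le_pow_left₀ (norm_nonneg _) h1 2
    nlinarith
  have h3 : infDist z K ^ 2 ≤ (1 / 4 : ℝ) ^ k := by
    have h4 : infDist z K ^ 2 ≤ ((1 / 2 : ℝ) ^ k) ^ 2 := pow_le_pow_left₀ hd0 hd2 2
    have h5 : ((1 / 2 : ℝ) ^ k) ^ 2 = (1 / 4 : ℝ) ^ k := by
      rw [← pow_mul, mul_comm, pow_mul]
      norm_num
    rwa [h5] at h4
  have h4 : sq (z' - y) ≤ 16 * (1 / 4 : ℝ) ^ k := by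
    have : 0 ≤ (1 / 4 : ℝ) ^ k := by positivity
    linarith
  have h5 := hk y hy (z' - y) h4
  have e2 : y + (z' - y) = z' := by abel
  rw [e2] at h5
  have e3 : f z' - (f y + J.q y (z' - y)) = f z' - f y - J.q y (z' - y) := by ring
  rw [e3]
  have hep : 0 ≤ e (k + 1) ^ 4 := pow_nonneg (h.epos _).le 4
  calc |f z' - f y - J.q y (z' - y)| ≤ e (k + 1) ^ 4 * sq (z' - y) := h5
    _ ≤ e (k + 1) ^ 4 * (9 / 2 * infDist z K ^ 2) := mul_le_mul_of_nonneg_left h2 hep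
    _ = 9 / 2 * e (k + 1) ^ 4 * infDist z K ^ 2 := by ring

private theorem extB_q (J : Jets) (c : ℝ) (y v z : ℝ × ℝ) :
    D2 (fun z' => c + J.q y (z' - y)) v z =
      J.a y * v.1 ^ 2 + 2 * J.b y * v.1 * v.2 + J.c y * v.2 ^ 2 := by
  simp only [D2, Jets.q, Prod.fst_sub, Prod.snd_sub, Prod.fst_add, Prod.snd_add]
  ring

private theorem extB_qcont (J : Jets) (c : ℝ) (y : ℝ × ℝ) :
    Continuous fun z' : ℝ × ℝ => c + J.q y (z' - y) := by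
  simp only [Jets.q, Prod.fst_sub, Prod.snd_sub]
  fun_prop

private theorem extB_pt {f : ℝ × ℝ → ℝ} (hf : Continuous f) {K : Set (ℝ × ℝ)} (hK : IsCompact K)
    {J : Jets} {e : ℕ → ℝ} {r : ℝ × ℝ → ℝ} {C : ℝ} (h : RD f K J e r C) {m : ℝ} (hm : 0 < m)
    (hquad : ∀ (c : ℝ) (J : Jets) (y : ℝ × ℝ) (r : ℝ × ℝ → ℝ) (z : ℝ × ℝ),
      T.mol2 (fun z' => c + J.q y (z' - y)) r z =
        c + J.q y (z - y) + m / 2 * (J.a y + J.c y) * r z ^ 2) {C₂ : ℝ} (hC₂ : 0 < C₂)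
    (hbound : ∀ (g r : ℝ × ℝ → ℝ) (z : ℝ × ℝ) (B : ℝ), Continuous g →
      ContDiffAt ℝ 2 r z → 0 < r z → ‖fderiv ℝ r z‖ ≤ 1 → r z * ‖iteratedFDeriv ℝ 2 r z‖ ≤ 1 →
      (∀ z' : ℝ × ℝ, ‖z' - z‖ ≤ r z → |g z'| ≤ B) →
      ‖iteratedFDeriv ℝ 2 (T.mol2 g r) z‖ ≤ C₂ * B / r z ^ 2) {B : ℝ}
    {k : ℕ} (hk : ∀ y ∈ K, ∀ v : ℝ × ℝ, sq v ≤ 16 * (1 / 4 : ℝ) ^ k →
      |f (y + v) - f y - J.q y v| ≤ e (k + 1) ^ 4 * sq v) {z y : ℝ × ℝ} (hz : z ∉ K)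
    (hB : |J.a y| ≤ B ∧ |J.c y| ≤ B)
    (hd1 : (1 / 2 : ℝ) ^ (k + 1) ≤ infDist z K) (hd2 : infDist z K ≤ (1 / 2 : ℝ) ^ k) (hy : y ∈ K)
    (hzy : infDist z K = dist z y) {η : ℝ} (hη : 0 < η) :
    ∃ ρ : ℝ, 0 < ρ ∧ ∀ v : ℝ × ℝ, sq v ≤ ρ ^ 2 →
      |D2 (T.mol2 f r) v z - (J.a y * v.1 ^ 2 + 2 * J.b y * v.1 * v.2 + J.c y * v.2 ^ 2)| ≤
        (m * B * ((2 * C + 2 * C ^ 2) * e k ^ 2 + η) + (18 * C₂ * e k ^ 2 + η)) * sq v := by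
  have hopen : IsOpen Kᶜ := hK.isClosed.isOpen_compl
  have hd0 : 0 < infDist z K := lt_of_lt_of_le (by positivity) hd1
  have hrz : 0 < r z := h.pos z hz
  have hrC : ContDiffAt ℝ 2 r z := h.sm.contDiffAt (hopen.mem_nhds hz)
  have hek : 0 < e k := h.epos k
  have hek1 : 0 < e (k + 1) := h.epos (k + 1)
  have heanti : e (k + 1) ≤ e k := h.anti (Nat.le_succ k)
  obtain ⟨Q, hQ⟩ : ∃ Q : ℝ × ℝ → ℝ, Q = fun z' => f y + J.q y (z' - y) := ⟨_, rfl⟩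
  obtain ⟨E, hE⟩ : ∃ E : ℝ × ℝ → ℝ, E = fun z' => f z' - Q z' := ⟨_, rfl⟩
  have hQc : Continuous Q := by
    rw [hQ]
    exact extB_qcont J (f y) y
  have hEc : Continuous E := by
    rw [hE]
    exact hf.sub hQc
  have hfQE : f = fun z' => Q z' + E z' := by
    rw [hE]
    funext z'
    ring
  -- the mollification of the parts
  have hmol : ∀ x, T.mol2 f r x = Q x + m / 2 * (J.a y + J.c y) * r x ^ 2 + T.mol2 E r x := by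
    intro x
    have h1 := mol2_add Q E r hQc hEc x
    rw [← hfQE] at h1
    rw [h1, hQ, hquad]
  have hD2 : ∀ v, D2 (T.mol2 f r) v z = D2 Q v z +
      m / 2 * (J.a y + J.c y) * D2 (fun z' => r z' ^ 2) v z + D2 (T.mol2 E r) v z := by
    intro v
    simp only [D2]
    rw [hmol, hmol, hmol]
    ring
  have hD2Q : ∀ v, D2 Q v z = J.a y * v.1 ^ 2 + 2 * J.b y * v.1 * v.2 + J.c y * v.2 ^ 2 := by
    intro v
    rw [hQ]
    exact extB_q J (f y) y v z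
  -- the radius
  obtain ⟨ρ1, hρ1, h1⟩ := sq_r r z hrC hrz.le η hη
  -- the error term
  have hEb : ∀ z' : ℝ × ℝ, ‖z' - z‖ ≤ r z → |E z'| ≤ 9 / 2 * e (k + 1) ^ 4 * infDist z K ^ 2 := by
    intro z' hz'
    rw [hE, hQ]
    exact extB_E h hk hz hd1 hd2 hy hzy z' hz'
  have hEC : ContDiffAt ℝ 2 (T.mol2 E r) z :=
    (T.mol2_contDiffOn E r hEc Kᶜ hopen h.sm fun x hx => h.pos x hx).contDiffAt (hopen.mem_nhds hz)
  have hEd := hbound E r z _ hEc hrC hrz (h.d1' z hz) (h.d2' z hz) hEb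
  have hlow := h.low k z hd1 hd2
  have hEd2 : ‖iteratedFDeriv ℝ 2 (T.mol2 E r) z‖ ≤ 18 * C₂ * e k ^ 2 := by
    refine hEd.trans ?_
    rw [div_le_iff₀ (by positivity)]
    have h2 : (e (k + 1) / 2 * infDist z K) ^ 2 ≤ r z ^ 2 :=
      pow_le_pow_left₀ (by positivity) hlow 2
    have h3 : e (k + 1) ^ 2 ≤ e k ^ 2 := pow_le_pow_left₀ hek1.le heanti 2
    calc C₂ * (9 / 2 * e (k + 1) ^ 4 * infDist z K ^ 2)
        = 18 * C₂ * e (k + 1) ^ 2 * (e (k + 1) / 2 * infDist z K) ^ 2 := by ring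
      _ ≤ 18 * C₂ * e k ^ 2 * r z ^ 2 := by
          apply mul_le_mul _ h2 (by positivity) (by positivity)
          exact mul_le_mul_of_nonneg_left h3 (by positivity)
  obtain ⟨ρ2, hρ2, h2⟩ := T.tay2 (T.mol2 E r) z hEC η hη
  refine ⟨min ρ1 ρ2, lt_min hρ1 hρ2, fun v hv => ?_⟩
  have hv1 : sq v ≤ ρ1 ^ 2 :=
    hv.trans (pow_le_pow_left₀ (lt_min hρ1 hρ2).le (min_le_left _ _) 2)
  have hv2 : sq v ≤ ρ2 ^ 2 :=
    hv.trans (pow_le_pow_left₀ (lt_min hρ1 hρ2).le (min_le_right _ _) 2)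
  have hsv : 0 ≤ sq v := by
    unfold sq
    positivity
  have hnv : ‖v‖ ^ 2 ≤ sq v := T.norm_le_sq v
  -- estimate of the square of the radius
  have h3 : |D2 (fun z' => r z' ^ 2) v z| ≤ ((2 * C + 2 * C ^ 2) * e k ^ 2 + η) * sq v := by
    refine (h1 v hv1).trans (mul_le_mul_of_nonneg_right ?_ hsv)
    have h4 := h.d1 k z hd1 hd2
    have h5 := h.d2 k z hd1 hd2
    have h6 : ‖fderiv ℝ r z‖ ^ 2 ≤ (C * e k) ^ 2 := pow_le_pow_left₀ (norm_nonneg _) h4 2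
    calc 2 * (r z * ‖iteratedFDeriv ℝ 2 r z‖) + 2 * ‖fderiv ℝ r z‖ ^ 2 + η
        ≤ 2 * (C * e k ^ 2) + 2 * (C * e k) ^ 2 + η := by linarith
      _ = (2 * C + 2 * C ^ 2) * e k ^ 2 + η := by ring
  -- estimate of the error
  have h4 : |D2 (T.mol2 E r) v z| ≤ (18 * C₂ * e k ^ 2 + η) * sq v := by
    have h5 := h2 v hv2
    have h6 : |iteratedFDeriv ℝ 2 (T.mol2 E r) z ![v, v]| ≤ 18 * C₂ * e k ^ 2 * ‖v‖ ^ 2 := by
      have h7 := (iteratedFDeriv ℝ 2 (T.mol2 E r) z).le_opNorm ![v, v]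
      rw [Real.norm_eq_abs, Fin.prod_univ_two] at h7
      simp only [Matrix.cons_val_zero, Matrix.cons_val_one] at h7
      refine h7.trans ?_
      rw [← pow_two]
      exact mul_le_mul_of_nonneg_right hEd2 (by positivity)
    have h8 : |D2 (T.mol2 E r) v z| ≤
        |D2 (T.mol2 E r) v z - iteratedFDeriv ℝ 2 (T.mol2 E r) z ![v, v]| +
          |iteratedFDeriv ℝ 2 (T.mol2 E r) z ![v, v]| := by
      have := abs_add_le (D2 (T.mol2 E r) v z - iteratedFDeriv ℝ 2 (T.mol2 E r) z ![v, v])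
        (iteratedFDeriv ℝ 2 (T.mol2 E r) z ![v, v])
      rwa [sub_add_cancel] at this
    have h9 : (18 * C₂ * e k ^ 2 + η) * ‖v‖ ^ 2 ≤ (18 * C₂ * e k ^ 2 + η) * sq v :=
      mul_le_mul_of_nonneg_left hnv (by positivity)
    calc |D2 (T.mol2 E r) v z| ≤ η * ‖v‖ ^ 2 + 18 * C₂ * e k ^ 2 * ‖v‖ ^ 2 :=
          h8.trans (add_le_add h5 h6)
      _ = (18 * C₂ * e k ^ 2 + η) * ‖v‖ ^ 2 := by ring
      _ ≤ _ := h9
  have h5 : |m / 2 * (J.a y + J.c y)| ≤ m * B := by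
    rw [abs_mul, abs_of_pos (by linarith : 0 < m / 2)]
    have h6 := abs_add_le (J.a y) (J.c y)
    have h7 : |J.a y + J.c y| ≤ 2 * B := by linarith [hB.1, hB.2]
    calc m / 2 * |J.a y + J.c y| ≤ m / 2 * (2 * B) :=
          mul_le_mul_of_nonneg_left h7 (by linarith)
      _ = m * B := by ring
  have hB0 : 0 ≤ B := (abs_nonneg _).trans hB.1
  have h6 : |m / 2 * (J.a y + J.c y) * D2 (fun z' => r z' ^ 2) v z| ≤
      m * B * (((2 * C + 2 * C ^ 2) * e k ^ 2 + η) * sq v) := by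
    rw [abs_mul]
    exact mul_le_mul h5 h3 (abs_nonneg _) (by positivity)
  rw [hD2, hD2Q]
  have e1 : J.a y * v.1 ^ 2 + 2 * J.b y * v.1 * v.2 + J.c y * v.2 ^ 2 +
      m / 2 * (J.a y + J.c y) * D2 (fun z' => r z' ^ 2) v z + D2 (T.mol2 E r) v z -
      (J.a y * v.1 ^ 2 + 2 * J.b y * v.1 * v.2 + J.c y * v.2 ^ 2) =
      m / 2 * (J.a y + J.c y) * D2 (fun z' => r z' ^ 2) v z + D2 (T.mol2 E r) v z := by ring
  rw [e1]
  calc |m / 2 * (J.a y + J.c y) * D2 (fun z' => r z' ^ 2) v z + D2 (T.mol2 E r) v z|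
      ≤ m * B * (((2 * C + 2 * C ^ 2) * e k ^ 2 + η) * sq v) +
          (18 * C₂ * e k ^ 2 + η) * sq v := (abs_add_le _ _).trans (add_le_add h6 h4)
    _ = _ := by ring

private theorem extB_H {a b c a' b' c' κ : ℝ} (ha : |a - a'| ≤ κ / 16) (hb : |b - b'| ≤ κ / 16)
    (hc : |c - c'| ≤ κ / 16) (v : ℝ × ℝ) :
    |(a * v.1 ^ 2 + 2 * b * v.1 * v.2 + c * v.2 ^ 2) -
      (a' * v.1 ^ 2 + 2 * b' * v.1 * v.2 + c' * v.2 ^ 2)| ≤ κ / 8 * sq v := by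
  have hκ : 0 ≤ κ / 16 := (abs_nonneg _).trans ha
  have e1 : (a * v.1 ^ 2 + 2 * b * v.1 * v.2 + c * v.2 ^ 2) -
      (a' * v.1 ^ 2 + 2 * b' * v.1 * v.2 + c' * v.2 ^ 2) =
      (a - a') * v.1 ^ 2 + (b - b') * (2 * (v.1 * v.2)) + (c - c') * v.2 ^ 2 := by ring
  rw [e1]
  have h1 : |(a - a') * v.1 ^ 2| ≤ κ / 16 * v.1 ^ 2 := by
    rw [abs_mul, abs_of_nonneg (sq_nonneg v.1)]
    exact mul_le_mul_of_nonneg_right ha (sq_nonneg _)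
  have h2 : |(c - c') * v.2 ^ 2| ≤ κ / 16 * v.2 ^ 2 := by
    rw [abs_mul, abs_of_nonneg (sq_nonneg v.2)]
    exact mul_le_mul_of_nonneg_right hc (sq_nonneg _)
  have h3 : |2 * (v.1 * v.2)| ≤ v.1 ^ 2 + v.2 ^ 2 := by
    rw [abs_le]
    constructor <;> nlinarith [sq_nonneg (v.1 - v.2), sq_nonneg (v.1 + v.2)]
  have h4 : |(b - b') * (2 * (v.1 * v.2))| ≤ κ / 16 * (v.1 ^ 2 + v.2 ^ 2) := by
    rw [abs_mul]
    exact mul_le_mul hb h3 (abs_nonneg _) hκ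
  unfold sq
  calc |(a - a') * v.1 ^ 2 + (b - b') * (2 * (v.1 * v.2)) + (c - c') * v.2 ^ 2|
      ≤ |(a - a') * v.1 ^ 2| + |(b - b') * (2 * (v.1 * v.2))| + |(c - c') * v.2 ^ 2| :=
        (abs_add_le _ _).trans (add_le_add (abs_add_le _ _) le_rfl)
    _ ≤ κ / 16 * v.1 ^ 2 + κ / 16 * (v.1 ^ 2 + v.2 ^ 2) + κ / 16 * v.2 ^ 2 :=
        add_le_add (add_le_add h1 h4) h2
    _ = κ / 8 * (v.1 ^ 2 + v.2 ^ 2) := by ring

private theorem extB_near {g : ℝ × ℝ → ℝ} {K : Set (ℝ × ℝ)} (hg : ContinuousOn g K) {y : ℝ × ℝ}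
    (hy : y ∈ K) {κ : ℝ} (hκ : 0 < κ) : ∃ δ : ℝ, 0 < δ ∧ ∀ x ∈ K, dist x y < δ →
      |g x - g y| ≤ κ := by
  obtain ⟨δ, hδ, h1⟩ := Metric.continuousOn_iff.1 hg y hy κ hκ
  refine ⟨δ, hδ, fun x hx hxy => ?_⟩
  have h2 := h1 x hx hxy
  rw [Real.dist_eq] at h2
  exact h2.le

private theorem extB_bd {g : ℝ × ℝ → ℝ} {K : Set (ℝ × ℝ)} (hK : IsCompact K)
    (hg : ContinuousOn g K) : ∃ B : ℝ, 0 ≤ B ∧ ∀ x ∈ K, |g x| ≤ B := by
  obtain ⟨B, hB⟩ := hK.exists_bound_of_continuousOn hg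
  refine ⟨|B|, abs_nonneg B, fun x hx => ?_⟩
  have := hB x hx
  rw [Real.norm_eq_abs] at this
  exact this.trans (le_abs_self B)

theorem extB (f : ℝ × ℝ → ℝ) (hf : Continuous f) (K : Set (ℝ × ℝ)) (hK : IsCompact K)
    (hne : K.Nonempty) (J : Jets) (hE : Exp2 f K J) (e : ℕ → ℝ) (r : ℝ × ℝ → ℝ) (C : ℝ)
    (h : RD f K J e r C) :
    ∀ y ∈ K, ∀ κ : ℝ, 0 < κ → ∃ δ : ℝ, 0 < δ ∧ ∀ z ∈ cb y δ, z ∉ K →
      ∃ ρ : ℝ, 0 < ρ ∧ ∀ v : ℝ × ℝ, sq v ≤ ρ ^ 2 →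
        |D2 (T.mol2 f r) v z - (J.a y * v.1 ^ 2 + 2 * J.b y * v.1 * v.2 + J.c y * v.2 ^ 2)| ≤ κ * sq v := by
  intro y0 hy0 κ hκ
  obtain ⟨m, hm, hquad⟩ := mol2_quad
  obtain ⟨C₂, hC₂, hbound⟩ := T.mol2_bound
  obtain ⟨B1, hB1, hB1'⟩ := extB_bd hK hE.ca
  obtain ⟨B2, hB2, hB2'⟩ := extB_bd hK hE.cc
  obtain ⟨k0, hk0⟩ := h.mod
  obtain ⟨δa, hδa, ha⟩ := extB_near hE.ca hy0 (by positivity : 0 < κ / 16)
  obtain ⟨δb, hδb, hb⟩ := extB_near hE.cb hy0 (by positivity : 0 < κ / 16)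
  obtain ⟨δc, hδc, hc⟩ := extB_near hE.cc hy0 (by positivity : 0 < κ / 16)
  obtain ⟨B, hB⟩ : ∃ B : ℝ, B = B1 + B2 := ⟨_, rfl⟩
  have hB0 : 0 ≤ B := by linarith
  obtain ⟨A, hA⟩ : ∃ A : ℝ, A = m * B * (2 * C + 2 * C ^ 2) + 18 * C₂ := ⟨_, rfl⟩
  have hC0 := h.C0
  have hA0 : 0 < A := by
    rw [hA]
    positivity
  -- large k
  have hlim : Tendsto (fun k => A * e k ^ 2) atTop (nhds (A * 0 ^ 2)) :=
    (h.lim.pow 2).const_mul A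
  have hev : ∀ᶠ k in atTop, A * e k ^ 2 < κ / 4 := by
    apply hlim.eventually_lt_const
    rw [zero_pow two_ne_zero, mul_zero]
    positivity
  obtain ⟨k1, hk1⟩ := eventually_atTop.1 hev
  obtain ⟨η, hη⟩ : ∃ η : ℝ, η = κ / (4 * (1 + m * B)) := ⟨_, rfl⟩
  have hη0 : 0 < η := by
    rw [hη]
    positivity
  have hη1 : (1 + m * B) * η = κ / 4 := by
    rw [hη]
    have : 0 < 1 + m * B := by positivity
    field_simp
  obtain ⟨N, hN⟩ : ∃ N : ℕ, N = max k0 k1 := ⟨_, rfl⟩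
  obtain ⟨δ, hδ⟩ : ∃ δ : ℝ, δ = min (min (δa / 4) (min (δb / 4) (δc / 4))) ((1 / 2 : ℝ) ^ (N + 1)) :=
    ⟨_, rfl⟩
  have hδ0 : 0 < δ := by
    rw [hδ]
    positivity
  have hδ1 : δ ≤ δa / 4 := by
    rw [hδ]
    exact (min_le_left _ _).trans (min_le_left _ _)
  have hδ2 : δ ≤ δb / 4 := by
    rw [hδ]
    exact (min_le_left _ _).trans ((min_le_right _ _).trans (min_le_left _ _))
  have hδ3 : δ ≤ δc / 4 := by
    rw [hδ]
    exact (min_le_left _ _).trans ((min_le_right _ _).trans (min_le_right _ _))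
  have hδ4 : δ ≤ (1 / 2 : ℝ) ^ (N + 1) := by
    rw [hδ]
    exact min_le_right _ _
  refine ⟨δ, hδ0, fun z hz hzK => ?_⟩
  have hdist : dist z y0 ≤ δ := by
    rw [dist_eq_norm]
    have h1 : ‖z - y0‖ ^ 2 ≤ δ ^ 2 := (T.norm_le_sq _).trans hz
    exact (sq_le_sq₀ (norm_nonneg _) hδ0.le).1 h1
  have hd : infDist z K ≤ δ := (infDist_le_dist_of_mem hy0).trans hdist
  have hd0 : 0 < infDist z K := (hK.isClosed.notMem_iff_infDist_pos hne).1 hzK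
  have hpow : (1 / 2 : ℝ) ^ (N + 1) < 1 := pow_lt_one₀ (by norm_num) (by norm_num) (by omega)
  obtain ⟨k, hk2, hk3⟩ := exists_nat_pow_near_of_lt_one hd0 (by linarith : infDist z K ≤ 1)
    (by norm_num : (0 : ℝ) < 1 / 2) (by norm_num : (1 / 2 : ℝ) < 1)
  have hkN : N ≤ k := by
    by_contra hlt
    have h1 : k + 1 ≤ N + 1 := by omega
    have h2 : (1 / 2 : ℝ) ^ (N + 1) ≤ (1 / 2 : ℝ) ^ (k + 1) :=
      pow_le_pow_of_le_one (by norm_num) (by norm_num) h1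
    linarith
  have hkk0 : k0 ≤ k := by
    have := le_max_left k0 k1
    omega
  have hkk1 : k1 ≤ k := by
    have := le_max_right k0 k1
    omega
  obtain ⟨y, hyK, hy⟩ := hK.exists_infDist_eq_dist hne z
  obtain ⟨ρ, hρ, h1⟩ := extB_pt hf hK h hm hquad hC₂ hbound (B := B) (hk0 k hkk0) hzK
    ⟨(hB1' y hyK).trans (by linarith), (hB2' y hyK).trans (by linarith)⟩ hk2.le hk3 hyK hy hη0
  refine ⟨ρ, hρ, fun v hv => ?_⟩
  have hsv : 0 ≤ sq v := by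
    unfold sq
    positivity
  have hyy : dist y y0 ≤ 2 * δ := by
    have h2 := dist_triangle y z y0
    rw [dist_comm y z, ← hy] at h2
    linarith
  have h2 := extB_H (ha y hyK (by linarith)) (hb y hyK (by linarith)) (hc y hyK (by linarith)) v
  have h3 := h1 v hv
  have h4 : (m * B * ((2 * C + 2 * C ^ 2) * e k ^ 2 + η) + (18 * C₂ * e k ^ 2 + η)) ≤ κ / 2 := by
    have h5 := hk1 k hkk1
    have e1 : (m * B * ((2 * C + 2 * C ^ 2) * e k ^ 2 + η) + (18 * C₂ * e k ^ 2 + η)) =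
        A * e k ^ 2 + (1 + m * B) * η := by
      rw [hA]
      ring
    rw [e1, hη1]
    linarith
  have h5 := mul_le_mul_of_nonneg_right h4 hsv
  have h6 := abs_add_le (D2 (T.mol2 f r) v z -
    (J.a y * v.1 ^ 2 + 2 * J.b y * v.1 * v.2 + J.c y * v.2 ^ 2))
    ((J.a y * v.1 ^ 2 + 2 * J.b y * v.1 * v.2 + J.c y * v.2 ^ 2) -
      (J.a y0 * v.1 ^ 2 + 2 * J.b y0 * v.1 * v.2 + J.c y0 * v.2 ^ 2))
  rw [sub_add_sub_cancel] at h6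
  calc |D2 (T.mol2 f r) v z - (J.a y0 * v.1 ^ 2 + 2 * J.b y0 * v.1 * v.2 + J.c y0 * v.2 ^ 2)|
      ≤ κ / 2 * sq v + κ / 8 * sq v := h6.trans (add_le_add (h3.trans h5) h2)
    _ ≤ κ * sq v := by nlinarith [mul_nonneg hκ.le hsv]

end Pool.Agent.MP_4eca41.R2
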