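import Pool.Agent.Work.MP_4eca41_an.R2.Setup
import Pool.Agent.Work.MP_4eca41_an.R2.ExtA
import Pool.Agent.Work.MP_4eca41_an.R2.ExtB
import Pool.Agent.Work.MP_4eca41_an.T.Glue

/-!
# Block R2: extension of class C^2 of uniform second order expansions

STATEMENT FIXED (helper49).

PROOF.  `e, r, C` from `rd_ex`, `A = T.mol2 f r`.  `A = f` on `K` and `|A - f| ≤ κ infDist^2` near `K`: `extA`.  `Exp2 A K J`: for `z ∈ K`: `|A (z+v) - A z - J.q z v| ≤ |A (z+v) - f (z+v)| + |f (z+v) - f z - J.q z v| ≤ κ (infDist (z+v) K)^2 + κ sq v` and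
`infDist (z+v) K ≤ ‖v‖`, `‖v‖^2 ≤ sq v`; the coefficients are continuous by `hE`.  `A` is `C^2` on `Kᶜ` by `T.mol2_contDiffOn`.  `T.glue` with `extB`.
-/

set_option autoImplicit false

open Set Metric Filter

namespace Pool.Agent.MP_4eca41.R2

theorem c2ext (f : ℝ × ℝ → ℝ) (hf : Continuous f) (K : Set (ℝ × ℝ)) (hK : IsCompact K)
    (hne : K.Nonempty) (J : Jets) (hE : Exp2 f K J) :
    ∃ A : ℝ × ℝ → ℝ, ContDiff ℝ 2 A ∧ Exp2 A K J ∧ (∀ z ∈ K, A z = f z) ∧
      ∀ κ : ℝ, 0 < κ → ∃ δ : ℝ, 0 < δ ∧ ∀ z : ℝ × ℝ, infDist z K ≤ δ →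
        |A z - f z| ≤ κ * infDist z K ^ 2 := by
  obtain ⟨e, r, C, h⟩ := rd_ex f K hK hne J hE
  obtain ⟨h1, h2⟩ := extA f hf K hK hne J hE e r C h
  have h3 := extB f hf K hK hne J hE e r C h
  have hA : Exp2 (T.mol2 f r) K J := by
    refine ⟨hE.cp, hE.cs, hE.ca, hE.cb, hE.cc, fun ε hε => ?_⟩
    obtain ⟨δ1, hδ1, hd1⟩ := h2 (ε / 2) (by linarith)
    obtain ⟨δ2, hδ2, hd2⟩ := hE.ex (ε / 2) (by linarith)
    refine ⟨min δ1 δ2, lt_min hδ1 hδ2, fun z hz v hv => ?_⟩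
    have hm : 0 < min δ1 δ2 := lt_min hδ1 hδ2
    have hn := T.norm_le_sq v
    have hnv : ‖v‖ ≤ min δ1 δ2 := by
      by_contra hc
      push Not at hc
      nlinarith [norm_nonneg v]
    have hi : infDist (z + v) K ≤ ‖v‖ := by
      have := infDist_le_dist_of_mem (x := z + v) hz
      rwa [dist_eq_norm, add_sub_cancel_left] at this
    have hi0 : 0 ≤ infDist (z + v) K := infDist_nonneg
    have ha := hd1 (z + v) (hi.trans (hnv.trans (min_le_left _ _)))
    have hb := hd2 z hz v (hv.trans (by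
      have := min_le_right δ1 δ2
      nlinarith))
    have hc : infDist (z + v) K ^ 2 ≤ sq v := by nlinarith
    rw [h1 z hz]
    have hab : |T.mol2 f r (z + v) - f z - J.q z v| ≤
        |T.mol2 f r (z + v) - f (z + v)| + |f (z + v) - f z - J.q z v| := by
      have := abs_add_le (T.mol2 f r (z + v) - f (z + v)) (f (z + v) - f z - J.q z v)
      calc |T.mol2 f r (z + v) - f z - J.q z v|
          = |(T.mol2 f r (z + v) - f (z + v)) + (f (z + v) - f z - J.q z v)| := by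
            congr 1
            ring
        _ ≤ _ := this
    nlinarith
  refine ⟨T.mol2 f r, T.glue K hK _ J hA ?_ h3, hA, h1, h2⟩
  exact T.mol2_contDiffOn f r hf Kᶜ hK.isClosed.isOpen_compl h.sm (fun z hz => h.pos z hz)

end Pool.Agent.MP_4eca41.R2
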