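import Pool.Agent.Work.MP_4eca41_an.R2.Defs
import Pool.Agent.Work.MP_4eca41_an.T.Rad
import Pool.Agent.Work.MP_4eca41_an.T.Seq

/-!
# Block R2: existence of the radius data

STATEMENT FIXED (helper49).

PROOF.  `C₁` from `T.radius (ℝ × ℝ)`; `c = 1 / (8 * (1 + C₁))`, so `c ≤ 1/8`, `C₁ c ≤ 1`, `4 C₁ c^2 ≤ 1`.  `M k ε :⇔ ∀ y ∈ K, ∀ v, sq v ≤ 16 (1/4)^k → |f (y+v) - f y - J.q y v| ≤ ε sq v`; by `hE.ex ε` it holds for
large `k` (`16 (1/4)^k ≤ δ^2`).  `T.slow_seq` with `ψ t = t^4` gives `e`.  `r` from `T.radius` for `Z = K`, `e` (`e 0 ≤ 1`).  `C = 4 * C₁`.  `d2`: `r z ‖iteratedFDeriv‖ ≤ 4 e k * infDist z K * (C₁ e k 2^k) ≤ 4 C₁ (e k)^2` because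
`infDist z K * 2^k ≤ 1`.  `d1'`, `d2'`: every `z ∉ K` has `infDist z K ≥ 1` (derivatives zero) or `(1/2)^(k+1) ≤ infDist z K ≤ (1/2)^k` for some `k` (`infDist z K > 0` as `K` is closed and nonempty), and `e k ≤ e 0 ≤ c`.
`sm`: `ContDiffOn ℝ ∞` implies `ContDiffOn ℝ 2` (`.of_le`).
-/

set_option autoImplicit false

open Set Metric Filter

namespace Pool.Agent.MP_4eca41.R2

theorem rd_ex (f : ℝ × ℝ → ℝ) (K : Set (ℝ × ℝ)) (hK : IsCompact K) (hne : K.Nonempty) (J : Jets)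
    (hE : Exp2 f K J) : ∃ (e : ℕ → ℝ) (r : ℝ × ℝ → ℝ) (C : ℝ), RD f K J e r C := by
  obtain ⟨C₁, hC₁, hR⟩ := T.radius (ℝ × ℝ)
  obtain ⟨c, hc, hc8, hcC⟩ : ∃ c : ℝ, 0 < c ∧ c ≤ 1 / 8 ∧ C₁ * c ≤ 1 / 8 := by
    refine ⟨1 / (8 * (1 + C₁)), by positivity, ?_, ?_⟩
    · rw [div_le_div_iff₀ (by positivity) (by norm_num)]
      nlinarith
    · rw [mul_one_div, div_le_div_iff₀ (by positivity) (by norm_num)]
      nlinarith
  obtain ⟨e, hanti, hpos, he0, hlim, k0, hk0⟩ := T.slow_seq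
    (fun k ε => ∀ y ∈ K, ∀ v : ℝ × ℝ, sq v ≤ 16 * (1 / 4 : ℝ) ^ k →
      |f (y + v) - f y - J.q y v| ≤ ε * sq v) (by
      intro ε hε
      obtain ⟨δ, hδ, h⟩ := hE.ex ε hε
      have ht : Tendsto (fun k : ℕ => 16 * (1 / 4 : ℝ) ^ k) atTop (nhds (16 * 0)) :=
        (tendsto_pow_atTop_nhds_zero_of_lt_one (by norm_num) (by norm_num)).const_mul 16
      rw [mul_zero] at ht
      have h2 := ht.eventually (gt_mem_nhds (show (0 : ℝ) < δ ^ 2 by positivity))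
      obtain ⟨N, hN⟩ := eventually_atTop.1 h2
      exact ⟨N, fun k hk y hy v hv => h y hy v (hv.trans (hN k hk).le)⟩)
    (fun t => t ^ 4) (fun t ht => by positivity) c hc
  have hcl : IsClosed K := hK.isClosed
  obtain ⟨r, hcont, hsm, hzero, hrpos, -, hk, hfar⟩ := hR K hcl hne e hanti hpos
    (by linarith)
  have hcase : ∀ z, z ∉ K → 1 ≤ infDist z K ∨
      ∃ k : ℕ, (1 / 2 : ℝ) ^ (k + 1) ≤ infDist z K ∧ infDist z K ≤ (1 / 2 : ℝ) ^ k := by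
    intro z hz
    rcases le_or_gt 1 (infDist z K) with h | h
    · exact Or.inl h
    · right
      have h0 : 0 < infDist z K := (hcl.notMem_iff_infDist_pos hne).1 hz
      obtain ⟨n, h1, h2⟩ := exists_nat_pow_near_of_lt_one h0 h.le
        (show (0 : ℝ) < 1 / 2 by norm_num) (by norm_num)
      exact ⟨n, h1.le, h2⟩
  have hek : ∀ k, e k ≤ c := fun k => (hanti (Nat.zero_le k)).trans he0
  have hd2 : ∀ (k : ℕ) (z : ℝ × ℝ), (1 / 2 : ℝ) ^ (k + 1) ≤ infDist z K →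
      infDist z K ≤ (1 / 2 : ℝ) ^ k →
      r z * ‖iteratedFDeriv ℝ 2 r z‖ ≤ 4 * C₁ * e k ^ 2 := by
    intro k z h1 h2
    obtain ⟨-, h4, -, h6⟩ := hk k z h1 h2
    have h7 : (1 / 2 : ℝ) ^ k * 2 ^ k = 1 := by
      rw [← mul_pow]
      norm_num
    have h8 : r z ≤ 4 * e k * (1 / 2 : ℝ) ^ k :=
      h4.trans (mul_le_mul_of_nonneg_left h2 (by have := hpos k; positivity))
    calc r z * ‖iteratedFDeriv ℝ 2 r z‖ ≤ (4 * e k * (1 / 2 : ℝ) ^ k) * (C₁ * e k * 2 ^ k) :=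
          mul_le_mul h8 h6 (norm_nonneg _) (by have := hpos k; positivity)
      _ = 4 * C₁ * e k ^ 2 * ((1 / 2 : ℝ) ^ k * 2 ^ k) := by ring
      _ = 4 * C₁ * e k ^ 2 := by rw [h7, mul_one]
  refine ⟨e, r, 4 * C₁, ⟨hcont, hsm.of_le (WithTop.coe_le_coe.2 le_top), hzero, hrpos,
    by positivity, hanti, hpos, by linarith, hlim, fun k z h1 h2 => (hk k z h1 h2).1,
    fun k z h1 h2 => (hk k z h1 h2).2.1, ?_, hd2, ?_, ?_, k0, hk0⟩⟩
  · intro k z h1 h2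
    have h3 := (hk k z h1 h2).2.2.1
    have h4 : 0 ≤ C₁ * e k := mul_nonneg hC₁.le (hpos k).le
    linarith
  · intro z hz
    rcases hcase z hz with h | ⟨k, h1, h2⟩
    · rw [(hfar z h).2.1, norm_zero]
      exact zero_le_one
    · have h3 := (hk k z h1 h2).2.2.1
      have h4 : C₁ * e k ≤ C₁ * c := mul_le_mul_of_nonneg_left (hek k) hC₁.le
      linarith
  · intro z hz
    rcases hcase z hz with h | ⟨k, h1, h2⟩
    · rw [(hfar z h).2.2, norm_zero, mul_zero]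
      exact zero_le_one
    · have h3 := hd2 k z h1 h2
      have h4 : C₁ * e k ≤ C₁ * c := mul_le_mul_of_nonneg_left (hek k) hC₁.le
      have h5 : C₁ * e k * e k ≤ (1 / 8) * (1 / 8) :=
        mul_le_mul (h4.trans hcC) ((hek k).trans hc8) (hpos k).le (by norm_num)
      nlinarith

end Pool.Agent.MP_4eca41.R2
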